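import Pool.Agent.H247Z.SBC.Self

/-! The balance of types in a macro-tile. -/

set_option autoImplicit false

namespace Pool.Agent.H247Z.SBC

open Finset

attribute [local irreducible] Finset.univ

def layG (q : Pos) (z : Bool) (φ2 φ3 φ4 : ℕ → Nm) : Ty :=
  (fun d => nm1 q d, fun d => nmG (φ2 d) (φ3 d) (φ4 d) d (nm (cell z q) d), decide (net (cell z q) = 0))

lemma lay_eq (q : Pos) (t : Ty) : lay q t = layG q t.2.2 (fun d => shf (n1 t d))
    (fun d => shf (n2 t d)) (fun d => yard (shf (n2 t d)) q d) := rfl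

def cv (d : ℕ) (φ : Nm) : Ty :=
  (fun _ => idn, fun e => if (e : ℕ) = d then φ else if (e : ℕ) / 2 = d / 2 then idn
    else nmG idn idn idn e 0, false)

lemma nm1_mid {q : Pos} (h : ∀ i, 2 ≤ sq q i ∧ sq q i ≤ 29) (e : ℕ) : nm1 q e = idn := by
  have h1 := h (f3 (e / 2))
  have h2 := sq_zero_iff q (f3 (e / 2))
  have h3 := sq_one_iff q (f3 (e / 2))
  have h4 := sq_30_iff q (f3 (e / 2))
  unfold nm1
  rw [if_neg (show ¬ (inter q ∧ (q (f3 (e / 2))).val = 5148) by omega),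
    if_neg (show ¬ (q (f3 (e / 2))).val = 0 by omega),
    if_neg (show ¬ (inter q ∧ (q (f3 (e / 2))).val = 1) by omega), ite_self]

lemma layG_cv {q : Pos} {z : Bool} {d n : ℕ} (φ2 φ3 φ4 : ℕ → Nm) (h : cvt (cell z q) d n)
    (h0 : net (cell z q) ≠ 0) (hm : ∀ i, 2 ≤ sq q i ∧ sq q i ≤ 29) :
    layG q z φ2 φ3 φ4 = cv d (nmG (φ2 d) (φ3 d) (φ4 d) d n) := by
  refine Prod.ext (funext fun e => nm1_mid hm e) (Prod.ext (funext fun e => ?_) (by simp [layG, cv, h0]))
  show nmG (φ2 e) (φ3 e) (φ4 e) e (nm (cell z q) e) = if (e : ℕ) = d then _ else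
    if (e : ℕ) / 2 = d / 2 then idn else nmG idn idn idn e 0
  rw [h e e.2]
  split_ifs with h1 h2
  · rw [h1]
  · simp [nmG]
  · simp [nmG]

lemma co_f3 (x : Fin 3 → ℕ) {k : ℕ} (hk : k < 3) : co (x 0) (x 1) (x 2) k = x (f3 k) := by
  have := co_eq x (f3 k)
  rwa [show ((f3 k : Fin 3) : ℕ) = k from Nat.mod_eq_of_lt hk] at this

lemma f3_mod (k : ℕ) : f3 (k % 3) = f3 k := by
  unfold f3; congr 1; omega

lemma f3_cover (k : ℕ) (j : Fin 3) : j = f3 k ∨ j = f3 (k + 1) ∨ j = f3 (k + 2) := by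
  simp only [Fin.ext_iff, f3]; omega
lemma f3_ne1 (k : ℕ) : f3 (k + 1) ≠ f3 k := by simp only [Ne, Fin.ext_iff, f3]; omega
lemma f3_ne2 (k : ℕ) : f3 (k + 2) ≠ f3 k := by simp only [Ne, Fin.ext_iff, f3]; omega
lemma f3_ne3 (k : ℕ) : f3 (k + 2) ≠ f3 (k + 1) := by simp only [Ne, Fin.ext_iff, f3]; omega

lemma cD3 (z : Bool) (q : Pos) {d : ℕ} (hd : d < 6) :
    (nm (cell z q) d = 3 → sq q (f3 (d / 2)) = u2 d ∧ sq q (f3 (d / 2 + 1)) / 2 = 6 ∧
      sq q (f3 (d / 2 + 2)) / 2 = 6) ∧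
    (nm (cell z q) d = 4 → sq q (f3 (d / 2)) = uy d ∧ sq q (f3 (d / 2 + 1)) / 2 = 14 ∧
      sq q (f3 (d / 2 + 2)) / 2 = 8) := by
  have h := cD2 z q hd
  unfold pD2 at h
  rw [co_f3 (sq q) (by omega), co_f3 (sq q) (by omega), co_f3 (sq q) (by omega), f3_mod, f3_mod] at h
  exact ⟨h.1, h.2.1⟩

lemma mid_of {z : Bool} {q : Pos} {d : ℕ} (hd : d < 6)
    (h : nm (cell z q) d = 3 ∨ nm (cell z q) d = 4) (i : Fin 3) : 2 ≤ sq q i ∧ sq q i ≤ 29 := by
  obtain ⟨h1, h2⟩ := cD3 z q hd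
  unfold u2 at h1
  unfold uy at h2
  rcases h with h | h
  · have := h1 h
    rcases f3_cover (d / 2) i with rfl | rfl | rfl <;> split_ifs at this <;> omega
  · have := h2 h
    rcases f3_cover (d / 2) i with rfl | rfl | rfl <;> split_ifs at this <;> omega

lemma cell_cr (z : Bool) (q : Pos) {k : ℕ} (hk : k < 3) :
    cell z q = cr z k (sq q (f3 k)) (sq q (f3 (k + 1))) (sq q (f3 (k + 2))) := by
  interval_cases k <;> rfl

lemma nm3_iff (z : Bool) (q : Pos) {d : ℕ} (hd : d < 6) : nm (cell z q) d = 3 ↔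
    (q (f3 (d / 2))).val = u2 d ∧ (q (f3 (d / 2 + 1))).val / 2 = 6 ∧ (q (f3 (d / 2 + 2))).val / 2 = 6 := by
  have l0 := val_lt q (f3 (d / 2))
  have l1 := val_lt q (f3 (d / 2 + 1))
  have l2 := val_lt q (f3 (d / 2 + 2))
  have hu : u2 d < 28 := by unfold u2; split_ifs <;> omega
  constructor
  · intro h
    obtain ⟨h1, h2, h3⟩ := (cD3 z q hd).1 h
    unfold sq sm at h1 h2 h3
    split_ifs at h1 h2 h3 <;> omega
  · rintro ⟨h1, h2, h3⟩
    have := (chkE z d hd ((q (f3 (d / 2 + 1))).val % 2) (by omega) ((q (f3 (d / 2 + 2))).val % 2)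
      (by omega)).1
    rw [cell_cr z q (k := d / 2) (by omega)]
    convert this using 3 <;> unfold sq sm <;> split_ifs <;> omega

lemma nm4_iff (z : Bool) (q : Pos) {d : ℕ} (hd : d < 6) : nm (cell z q) d = 4 ↔
    (q (f3 (d / 2))).val = uy d ∧ (28 ≤ (q (f3 (d / 2 + 1))).val ∧ (q (f3 (d / 2 + 1))).val < 5148) ∧
      (q (f3 (d / 2 + 2))).val / 2 = 8 := by
  have l0 := val_lt q (f3 (d / 2))
  have l1 := val_lt q (f3 (d / 2 + 1))
  have l2 := val_lt q (f3 (d / 2 + 2))
  have hu : uy d < 28 := by unfold uy; split_ifs <;> omega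
  constructor
  · intro h
    obtain ⟨h1, h2, h3⟩ := (cD3 z q hd).2 h
    unfold sq sm at h1 h2 h3
    split_ifs at h1 h2 h3 <;> omega
  · rintro ⟨h1, h2, h3⟩
    have := (chkE z d hd ((q (f3 (d / 2 + 1))).val % 2) (by omega) ((q (f3 (d / 2 + 2))).val % 2)
      (by omega)).2
    rw [cell_cr z q (k := d / 2) (by omega)]
    convert this using 3 <;> unfold sq sm <;> split_ifs <;> omega

def idx (φ : Nm) : ℕ := 256 * φ.1.val + φ.2.val

lemma idx_lt (φ : Nm) : idx φ < 2560 := by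
  have := φ.1.2
  have : φ.2.val < 256 := ZMod.val_lt _
  unfold idx; omega

lemma nameOf_iff {k : ℕ} (hk : k < 2560) (φ : Nm) : nameOf k = φ ↔ k = idx φ := by
  have h1 := φ.1.2
  have h2 : φ.2.val < 256 := ZMod.val_lt _
  unfold nameOf idx
  constructor
  · intro h
    have e1 : k / 256 % 10 = φ.1.val := congrArg (fun x : Nm => x.1.val) h
    have e2 : ((k : ZMod 256)).val = φ.2.val := congrArg (fun x : Nm => x.2.val) h
    rw [ZMod.val_natCast] at e2
    omega
  · intro h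
    refine Prod.ext (Fin.ext ?_) (ZMod.val_injective 256 ?_)
    · show k / 256 % 10 = φ.1.val
      omega
    · show ((k : ZMod 256)).val = φ.2.val
      rw [ZMod.val_natCast]; omega

def slot (k a b c : ℕ) : Finset Pos := univ.filter fun q =>
  (q (f3 k)).val = a ∧ (q (f3 (k + 1))).val / 2 = b ∧ (q (f3 (k + 2))).val / 2 = c

def mv (k a b c : ℕ) (q : Pos) : Pos := fun j =>
  if j = f3 k then (a : ZMod NN) else if j = f3 (k + 1) then ((2 * b + (q j).val % 2 : ℕ) : ZMod NN)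
  else ((2 * c + (q j).val % 2 : ℕ) : ZMod NN)

lemma mv_val (k : ℕ) {a b c : ℕ} (ha : a < 5150) (hb : b < 2575) (hc : c < 2575) (q : Pos) :
    (mv k a b c q (f3 k)).val = a ∧
    (mv k a b c q (f3 (k + 1))).val = 2 * b + (q (f3 (k + 1))).val % 2 ∧
    (mv k a b c q (f3 (k + 2))).val = 2 * c + (q (f3 (k + 2))).val % 2 := by
  unfold mv
  rw [if_pos rfl, if_neg (f3_ne1 k), if_pos rfl, if_neg (f3_ne2 k), if_neg (f3_ne3 k)]
  exact ⟨val_cast ha, val_cast (by omega), val_cast (by omega)⟩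

lemma mem_slot {k a b c : ℕ} {q : Pos} : q ∈ slot k a b c ↔
    (q (f3 k)).val = a ∧ (q (f3 (k + 1))).val / 2 = b ∧ (q (f3 (k + 2))).val / 2 = c := by
  unfold slot
  rw [mem_filter]
  exact ⟨fun h => h.2, fun h => ⟨mem_univ _, h⟩⟩

lemma slot_card (k : ℕ) {a b c a' b' c' : ℕ} (ha : a < 5150) (hb : b < 2575) (hc : c < 2575)
    (ha' : a' < 5150) (hb' : b' < 2575) (hc' : c' < 2575) :
    (slot k a b c).card = (slot k a' b' c').card := by
  have m : ∀ {a b c : ℕ}, a < 5150 → b < 2575 → c < 2575 → ∀ q, mv k a b c q ∈ slot k a b c := by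
    intro a b c ha hb hc q
    obtain ⟨h1, h2, h3⟩ := mv_val k ha hb hc q
    rw [mem_slot]; omega
  have l : ∀ {a b c a' b' c' : ℕ}, a < 5150 → b < 2575 → c < 2575 → a' < 5150 → b' < 2575 →
      c' < 2575 → ∀ q ∈ slot k a b c, mv k a b c (mv k a' b' c' q) = q := by
    intro a b c a' b' c' ha hb hc ha' hb' hc' q hq
    obtain ⟨h1, h2, h3⟩ := mv_val k ha hb hc (mv k a' b' c' q)
    obtain ⟨g1, g2, g3⟩ := mv_val k ha' hb' hc' q
    rw [mem_slot] at hq
    apply pos_ext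
    intro i
    rcases f3_cover k i with rfl | rfl | rfl <;> omega
  exact card_nbij' (mv k a' b' c') (mv k a b c) (fun q _ => m ha' hb' hc' q)
    (fun q _ => m ha hb hc q) (fun q hq => l ha hb hc ha' hb' hc' q hq)
    (fun q hq => l ha' hb' hc' ha hb hc q hq)

lemma card_bal (z : Bool) {d : ℕ} (hd : d < 6) (φ : Nm) :
    (univ.filter fun q : Pos => nm (cell z q) d = 3).card =
    (univ.filter fun q : Pos => nm (cell z q) d = 4 ∧ nameOf (ixq q d) = φ).card := by
  have hu : u2 d < 28 := by unfold u2; split_ifs <;> omega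
  have hy : uy d < 28 := by unfold uy; split_ifs <;> omega
  have hi := idx_lt φ
  have e1 : (univ.filter fun q : Pos => nm (cell z q) d = 3) = slot (d / 2) (u2 d) 6 6 :=
    filter_congr fun q _ => nm3_iff z q hd
  have e2 : (univ.filter fun q : Pos => nm (cell z q) d = 4 ∧ nameOf (ixq q d) = φ) =
      slot (d / 2) (uy d) (14 + idx φ) 8 := by
    refine filter_congr fun q _ => ?_
    rw [nm4_iff z q hd]
    constructor
    · rintro ⟨⟨h1, h2, h3⟩, h4⟩
      rw [nameOf_iff (by unfold ixq; omega)] at h4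
      unfold ixq at h4
      omega
    · rintro ⟨h1, h2, h3⟩
      refine ⟨⟨h1, by omega, h3⟩, ?_⟩
      rw [nameOf_iff (by unfold ixq; omega)]
      unfold ixq
      omega
  rw [e1, e2]
  exact slot_card _ (by omega) (by omega) (by omega) (by omega) (by omega) (by omega)

lemma bal_point (k : Ty → ℝ) (q : Pos) (z : Bool) (φ2 φ : ℕ → Nm) :
    k (layG q z φ2 φ (fun d => yard (φ d) q d)) -
      k (layG q z φ2 (fun _ => idn) (fun d => nameOf (ixq q d))) =
    ∑ d ∈ range 6, ((if nm (cell z q) d = 3 then k (cv d (φ d)) - k (cv d idn) else 0) -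
      (if nm (cell z q) d = 4 ∧ nameOf (ixq q d) = φ d then k (cv d (φ d)) - k (cv d idn) else 0)) := by
  by_cases h : ∃ d < 6, nm (cell z q) d = 3 ∨ nm (cell z q) d = 4
  · obtain ⟨d, hd, h⟩ := h
    have hm := mid_of hd h
    have hD := cD2 z q hd
    have hc : ∃ n, nm (cell z q) d = n ∧ cvt (cell z q) d n ∧ net (cell z q) ≠ 0 := by
      rcases h with h | h
      · exact ⟨3, h, hD.2.2.1 h⟩
      · exact ⟨4, h, hD.2.2.2 h⟩
    obtain ⟨n, hn, h1, h2⟩ := hc
    rw [layG_cv _ _ _ h1 h2 hm, layG_cv _ _ _ h1 h2 hm, sum_eq_single d]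
    · rw [hn] at h ⊢
      rcases h with rfl | rfl
      · simp [nmG]
      · by_cases hy : nameOf (ixq q d) = φ d
        · simp [nmG, yard, hy]
        · simp [nmG, yard, hy]
    · intro e he hne
      have := h1 e (mem_range.1 he)
      rw [if_neg hne] at this
      rw [if_neg (by split_ifs at this <;> omega), if_neg (by split_ifs at this <;> omega), sub_zero]
    · intro hd'
      exact absurd (mem_range.2 hd) hd'
  · push Not at h
    have e : layG q z φ2 φ (fun d => yard (φ d) q d) =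
        layG q z φ2 (fun _ => idn) (fun d => nameOf (ixq q d)) := by
      refine Prod.ext rfl (Prod.ext (funext fun e => ?_) rfl)
      have := h e e.2
      show nmG _ _ _ _ (nm (cell z q) e) = nmG _ _ _ _ (nm (cell z q) e)
      unfold nmG
      rw [if_neg this.1, if_neg this.1, if_neg this.2, if_neg this.2]
    rw [e, sub_self]
    symm
    refine sum_eq_zero fun d hd => ?_
    have := h d (mem_range.1 hd)
    rw [if_neg this.1, if_neg (fun hh => this.2 hh.1), sub_zero]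

lemma balance (k : Ty → ℝ) (t : Ty) : ∑ q : Pos, k (lay q t) =
    ∑ q : Pos, k (layG q t.2.2 (fun d => shf (n1 t d)) (fun _ => idn) (fun d => nameOf (ixq q d))) := by
  rw [← sub_eq_zero, ← sum_sub_distrib]
  simp only [lay_eq, bal_point]
  rw [sum_comm]
  refine sum_eq_zero fun d hd => ?_
  rw [sum_sub_distrib, ← sum_filter, ← sum_filter, sum_const, sum_const,
    card_bal _ (mem_range.1 hd) (shf (n2 t d)), sub_self]

end Pool.Agent.H247Z.SBC
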