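import Pool.Agent.H247Z.SBC.Tiles

/-! The finite checks on the wiring plan, transported to positions of the macro-tile. -/

set_option autoImplicit false

namespace Pool.Agent.H247Z.SBC

def up (q : Pos) (i : Fin 3) : Pos := q + Pi.single i 1
def dn (q : Pos) (i : Fin 3) : Pos := q - Pi.single i 1

@[simp] lemma up_dn (q : Pos) (i : Fin 3) : up (dn q i) i = q := by simp [up, dn]
@[simp] lemma dn_up (q : Pos) (i : Fin 3) : dn (up q i) i = q := by simp [up, dn]
lemma val_lt (q : Pos) (i : Fin 3) : (q i).val < 5150 := ZMod.val_lt _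
lemma up_ne (q : Pos) {i j : Fin 3} (h : j ≠ i) : up q i j = q j := by simp [up, h]
lemma dn_ne (q : Pos) {i j : Fin 3} (h : j ≠ i) : dn q i j = q j := by simp [dn, h]
lemma val_one' : (1 : ZMod NN).val = 1 := by
  have : Fact (1 < NN) := ⟨by norm_num⟩
  exact ZMod.val_one NN
lemma up_val (q : Pos) (i : Fin 3) : (up q i i).val = ((q i).val + 1) % 5150 := by
  simp only [up, Pi.add_apply, Pi.single_eq_same]
  rw [ZMod.val_add, val_one']
lemma dn_val (q : Pos) (i : Fin 3) : (dn q i i).val = ((q i).val + 5149) % 5150 := by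
  have h := up_val (dn q i) i
  rw [up_dn] at h
  have := val_lt (dn q i) i
  omega
lemma eq_neg_one_iff (v : ZMod NN) : v = -1 ↔ v.val = 5149 := by
  have h : (-1 : ZMod NN).val = 5149 := ZMod.val_neg_one 5149
  constructor
  · rintro rfl; exact h
  · intro h'; exact ZMod.val_injective NN (h'.trans h.symm)
lemma pos_ext {q q' : Pos} (h : ∀ i, (q i).val = (q' i).val) : q = q' :=
  funext fun i => ZMod.val_injective NN (h i)

lemma sq_lt (q : Pos) (i : Fin 3) : sq q i < 32 := by
  have := val_lt q i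
  unfold sq sm
  split_ifs <;> omega

def cw (b : Bool) (x : Fin 3 → ℕ) : ℕ := cc b (x 0) (x 1) (x 2)

lemma co_eq (x : Fin 3 → ℕ) (i : Fin 3) : co (x 0) (x 1) (x 2) i = x i := by
  fin_cases i <;> simp [co]
lemma cu_eq (b : Bool) (x : Fin 3 → ℕ) (i : Fin 3) (v : ℕ) :
    cu b (x 0) (x 1) (x 2) i v = cw b (Function.update x i v) := by
  fin_cases i <;> simp [cu, cw]

lemma sq_up (q : Pos) (i : Fin 3) : sq (up q i) = Function.update (sq q) i (sq (up q i) i) := by
  funext j
  by_cases h : j = i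
  · subst h; simp
  · rw [Function.update_of_ne h]; simp only [sq, up_ne q h]
lemma sq_dn (q : Pos) (i : Fin 3) : sq (dn q i) = Function.update (sq q) i (sq (dn q i) i) := by
  funext j
  by_cases h : j = i
  · subst h; simp
  · rw [Function.update_of_ne h]; simp only [sq, dn_ne q h]

lemma cell_up (b : Bool) (q : Pos) (i : Fin 3) :
    cell b (up q i) = cu b (sq q 0) (sq q 1) (sq q 2) i (sq (up q i) i) := by
  rw [cu_eq, ← sq_up]; rfl
lemma cell_dn (b : Bool) (q : Pos) (i : Fin 3) :
    cell b (dn q i) = cu b (sq q 0) (sq q 1) (sq q 2) i (sq (dn q i) i) := by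
  rw [cu_eq, ← sq_dn]; rfl

lemma sq_up_cases (q : Pos) (i : Fin 3) :
    ((q i).val ≠ 5149 ∧ sq q i < 31 ∧ sq (up q i) i = sq q i + 1) ∨
    ((q i).val ≠ 5149 ∧ sq q i = 29 ∧ sq (up q i) i = 28) ∨
    ((q i).val = 5149 ∧ sq q i = 31 ∧ sq (up q i) i = 0) := by
  have h1 := val_lt q i
  have h2 := up_val q i
  unfold sq sm
  rw [h2]
  split_ifs <;> omega

lemma par_up (q : Pos) (i : Fin 3) : par (up q i) % 2 = (par q + 1) % 2 := by
  have h := sq_up_cases q i
  have h2 : ∀ j, j ≠ i → sq (up q i) j = sq q j := fun j hj => by simp only [sq, up_ne q hj]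
  unfold par
  fin_cases i
  · have := h2 1 (by decide); have := h2 2 (by decide)
    simp only [Fin.zero_eta] at *; omega
  · have := h2 0 (by decide); have := h2 2 (by decide)
    simp only [Fin.mk_one] at *; omega
  · have := h2 0 (by decide); have := h2 1 (by decide)
    simp only [Fin.reduceFinMk] at *; omega

lemma and3 {p : ℕ → Prop} [DecidablePred p] (h : (decide (p 0) && decide (p 1) && decide (p 2)) = true)
    (i : Fin 3) : p i := by
  simp only [Bool.and_eq_true, decide_eq_true_eq] at h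
  fin_cases i
  · exact h.1.1
  · exact h.1.2
  · exact h.2

lemma cA (b : Bool) (q : Pos) (i : Fin 3) :
    cell b q = 0 ∨ pA b (sq q 0) (sq q 1) (sq q 2) (cell b q) i := by
  rcases allC_spec chkA b (sq_lt q 0) (sq_lt q 1) (sq_lt q 2) with h | h
  · exact Or.inl (h b)
  · exact Or.inr (and3 (p := fun i => pA b (sq q 0) (sq q 1) (sq q 2) (cell b q) i) h i)

lemma cA2 (b : Bool) (q : Pos) (i : Fin 3) (h0 : cell b q = 0) : nm (cell b (up q i)) (2 * i) = 0 := by
  rcases allC_spec chkA2 b (sq_lt (up q i) 0) (sq_lt (up q i) 1) (sq_lt (up q i) 2) with h | h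
  · have : cell b (up q i) = 0 := h b
    rw [this, nm_zero]
  · have h' := and3 (p := fun j => pA2 b (sq (up q i) 0) (sq (up q i) 1) (sq (up q i) 2)
      (cell b (up q i)) j) h i
    rcases h' with h' | h'
    · exact h'
    · exfalso
      rw [co_eq (sq (up q i))] at h'
      have hd := cell_dn b (up q i) i
      rw [dn_up, h0] at hd
      rcases sq_up_cases q i with h1 | h1 | h1
      · apply h'.1 (by omega)
        rw [show sq (up q i) i - 1 = sq q i by omega]; exact hd.symm
      · apply h'.2.1 h1.2.2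
        rw [← h1.2.1]; exact hd.symm
      · apply h'.2.2 h1.2.2
        rw [← h1.2.1]; exact hd.symm

lemma facet_in (b : Bool) (q : Pos) (i : Fin 3) (hq : (q i).val ≠ 5149) :
    ok0 (cell b q) (cell b (up q i)) i (par q % 2) ∨ oks b (cell b q) (cell b (up q i)) i (par q % 2) := by
  rcases cA b q i with h | h
  · left; left
    exact ⟨by rw [h, nm_zero], cA2 b q i h⟩
  · unfold pA at h
    rw [co_eq (sq q)] at h
    rw [cell_up]
    rcases sq_up_cases q i with h1 | h1 | h1
    · rw [h1.2.2]; exact h.1 h1.2.1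
    · rw [h1.2.2]; exact h.2.1 h1.2.1
    · exact absurd h1.1 hq

lemma facet_out (b : Bool) (q : Pos) (i : Fin 3) (hq : (q i).val = 5149) :
    okx (cell b q) (cell b (up q i)) i := by
  rcases cA b q i with h | h
  · left
    exact ⟨by rw [h, nm_zero], cA2 b q i h⟩
  · unfold pA at h
    rw [co_eq (sq q)] at h
    rw [cell_up]
    rcases sq_up_cases q i with h1 | h1 | h1
    · exact absurd hq h1.1
    · exact absurd hq h1.1
    · rw [h1.2.2]; exact h.2.2 h1.2.1

lemma cD (b : Bool) (q : Pos) : (∀ b', cell b' q = 0) ∨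
    pD (sq q 0) (sq q 1) (sq q 2) (cell b q) (cell false q) := by
  rcases allC_spec chkD b (sq_lt q 0) (sq_lt q 1) (sq_lt q 2) with h | h
  · exact Or.inl h
  · exact Or.inr (of_decide_eq_true h)

lemma sq_zero_iff (q : Pos) (i : Fin 3) : sq q i = 0 ↔ (q i).val = 0 := by
  have := val_lt q i
  unfold sq sm; split_ifs <;> omega
lemma sq_one_iff (q : Pos) (i : Fin 3) : sq q i = 1 ↔ (q i).val = 1 := by
  have := val_lt q i
  unfold sq sm; split_ifs <;> omega
lemma sq_30_iff (q : Pos) (i : Fin 3) : sq q i = 30 ↔ (q i).val = 5148 := by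
  have := val_lt q i
  unfold sq sm; split_ifs <;> omega
lemma sq_31_iff (q : Pos) (i : Fin 3) : sq q i = 31 ↔ (q i).val = 5149 := by
  have := val_lt q i
  unfold sq sm; split_ifs <;> omega

lemma shell (b : Bool) (q : Pos) (hq : ¬ inter q) :
    cell b q = cell false q ∧ ∀ d < 6, nm (cell b q) d ≤ 1 := by
  rcases cD b q with h | h
  · rw [h b, h false]; simp
  · apply h.2.2.2.2.1
    unfold inter at hq
    push Not at hq
    obtain ⟨i, hi⟩ := hq
    rw [Ne, ← sq_zero_iff, ← sq_31_iff] at hi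
    fin_cases i <;> simp only [Fin.zero_eta, Fin.mk_one, Fin.reduceFinMk] at hi <;> omega

lemma net_zero_iff (b : Bool) (q : Pos) : net (cell b q) = 0 ↔ net (cell false q) = 0 := by
  rcases cD b q with h | h
  · rw [h b, h false]
  · exact h.2.2.2.1

lemma shell_net (b : Bool) (q : Pos) (i : Fin 3) : pD1 (sq q i) (cell b q) i := by
  rcases cD b q with h | h
  · rw [h b]; simp [pD1]
  · fin_cases i
    · exact h.1
    · exact h.2.1
    · exact h.2.2.1

lemma cD2 (b : Bool) (q : Pos) {d : ℕ} (hd : d < 6) : pD2 (sq q 0) (sq q 1) (sq q 2) (cell b q) d := by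
  rcases cD b q with h | h
  · rw [h b]; simp [pD2]
  · exact h.2.2.2.2.2 d hd

def mkp (x y z : ℕ) : Pos := ![(x : ZMod NN), (y : ZMod NN), (z : ZMod NN)]

lemma val_cast {x : ℕ} (h : x < 5150) : ((x : ZMod NN)).val = x := ZMod.val_cast_of_lt h

lemma mkp_val {x y z : ℕ} (hx : x < 5150) (hy : y < 5150) (hz : z < 5150) :
    (mkp x y z 0).val = x ∧ (mkp x y z 1).val = y ∧ (mkp x y z 2).val = z :=
  ⟨val_cast hx, val_cast hy, val_cast hz⟩

lemma sq_mkp {x y z : ℕ} (hx : x < 5150) (hy : y < 5150) (hz : z < 5150) :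
    sq (mkp x y z) 0 = sm x ∧ sq (mkp x y z) 1 = sm y ∧ sq (mkp x y z) 2 = sm z := by
  obtain ⟨h1, h2, h3⟩ := mkp_val hx hy hz
  simp only [sq, h1, h2, h3, and_self]

lemma eq_mkp {q : Pos} {x y z : ℕ} (hx : x < 28) (hy : y < 28) (hz : z < 28)
    (h0 : sq q 0 = x) (h1 : sq q 1 = y) (h2 : sq q 2 = z) : q = mkp x y z := by
  obtain ⟨e1, e2, e3⟩ := mkp_val (x := x) (y := y) (z := z) (by omega) (by omega) (by omega)
  have v0 := val_lt q 0
  have v1 := val_lt q 1
  have v2 := val_lt q 2
  unfold sq sm at h0 h1 h2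
  apply pos_ext
  intro i
  fin_cases i
  · simp only [Fin.zero_eta]; rw [e1]; split_ifs at h0 <;> omega
  · simp only [Fin.mk_one]; rw [e2]; split_ifs at h1 <;> omega
  · simp only [Fin.reduceFinMk]; rw [e3]; split_ifs at h2 <;> omega

def vsum (q : Pos) : ℕ := (q 0).val + (q 1).val + (q 2).val
def meas (b : Bool) (q : Pos) : ℕ := 2 * rk (cell b q) + vsum q

lemma vsum_up (q : Pos) (i : Fin 3) (h : (q i).val ≠ 5149) : vsum (up q i) = vsum q + 1 := by
  have h1 := up_val q i
  have h0 := val_lt q i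
  have h2 : ∀ j, j ≠ i → up q i j = q j := fun j hj => up_ne q hj
  unfold vsum
  fin_cases i
  · rw [h2 1 (by decide), h2 2 (by decide)]
    simp only [Fin.zero_eta] at *; omega
  · rw [h2 0 (by decide), h2 2 (by decide)]
    simp only [Fin.mk_one] at *; omega
  · rw [h2 0 (by decide), h2 1 (by decide)]
    simp only [Fin.reduceFinMk] at *; omega

lemma pred (b : Bool) (q : Pos) (h0 : net (cell b q) ≠ 0) (h1 : q ≠ mkp 16 16 16)
    (h2 : q ≠ mkp 12 12 12) : ∃ i : Fin 3,
    ((dn q i i).val ≠ 5149 ∧ nm (cell b q) (2 * i) = 1 ∧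
      ok0 (cell b (dn q i)) (cell b q) i (par (dn q i) % 2) ∧ meas b (dn q i) < meas b q) ∨
    ((q i).val ≠ 5149 ∧ nm (cell b q) (2 * i + 1) = 1 ∧
      ok0 (cell b q) (cell b (up q i)) i (par q % 2) ∧ meas b (up q i) < meas b q) := by
  rcases allC_spec chkB b (sq_lt q 0) (sq_lt q 1) (sq_lt q 2) with h | h
  · exact absurd (by rw [show cell b q = 0 from h b, net_zero]) h0
  have h' : pB' b (sq q 0) (sq q 1) (sq q 2) (cell b q) (pd (cell b q)) := of_decide_eq_true h
  rcases h' with h' | h' | h' | h'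
  · exact absurd h' h0
  · exact absurd (eq_mkp (by norm_num) (by norm_num) (by norm_num) h'.1 h'.2.1 h'.2.2) h1
  · exact absurd (eq_mkp (by norm_num) (by norm_num) (by norm_num) h'.1 h'.2.1 h'.2.2) h2
  generalize pd (cell b q) = d at h'
  obtain ⟨hd, hn, h'⟩ := h'
  obtain ⟨i, hi⟩ : ∃ i : Fin 3, (i : ℕ) = d / 2 := ⟨⟨d / 2, by omega⟩, rfl⟩
  refine ⟨i, ?_⟩
  rw [← hi, co_eq (sq q)] at h'
  by_cases hp : d % 2 = 0
  · left
    rw [if_pos hp] at h'
    obtain ⟨hpos, hb1, hb2⟩ := h'
    have hc := sq_up_cases (dn q i) i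
    rw [up_dn] at hc
    have hpar := par_up (dn q i) i
    rw [up_dn] at hpar
    have hne : (dn q i i).val ≠ 5149 := by omega
    have hv := vsum_up (dn q i) i hne
    rw [up_dn] at hv
    have key : pB1 (cell b q) (cell b (dn q i)) d (par q % 2) := by
      rw [cell_dn]
      rcases hc with hc | hc | hc
      · rw [show sq (dn q i) i = sq q i - 1 by omega]; exact hb1
      · rw [hc.2.1]; exact hb2 hc.2.2
      · omega
    unfold pB1 at key
    rw [if_pos hp, ← hi] at key
    refine ⟨hne, by rw [show 2 * (i : ℕ) = d by omega]; exact hn, ?_, ?_⟩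
    · rw [show par (dn q i) % 2 = (par q % 2 + 1) % 2 by omega]; exact key.1
    · unfold meas; have := key.2; omega
  · right
    rw [if_neg hp] at h'
    obtain ⟨hlt, hne29, hb1⟩ := h'
    have hc := sq_up_cases q i
    have hne : (q i).val ≠ 5149 := by omega
    have hv := vsum_up q i hne
    have key : pB1 (cell b q) (cell b (up q i)) d (par q % 2) := by
      rw [cell_up, show sq (up q i) i = sq q i + 1 by omega]; exact hb1
    unfold pB1 at key
    rw [if_neg hp, ← hi] at key
    refine ⟨hne, by rw [show 2 * (i : ℕ) + 1 = d by omega]; exact hn, key.1, ?_⟩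
    unfold meas; have := key.2; omega

/-- the partner of a cell of a wire -/
def prt (b : Bool) (q : Pos) : Pos := fun i => q i + (dv (cell b q) i : ZMod NN) - 2

lemma okd_val (v : ZMod NN) (d : ℕ) (h : okd (sm v.val) d) :
    (v + (d : ZMod NN) - 2).val + 2 = v.val + d ∧ sm (v + (d : ZMod NN) - 2).val = sm v.val + d - 2 := by
  have hv : v.val < 5150 := ZMod.val_lt _
  have key : v.val + d - 2 < 5150 ∧ 2 ≤ v.val + d ∧ sm (v.val + d - 2) = sm v.val + d - 2 := by
    unfold okd cls at h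
    unfold sm at h ⊢
    split_ifs at h ⊢ <;> omega
  have e : v + (d : ZMod NN) - 2 = ((v.val + d - 2 : ℕ) : ZMod NN) := by
    rw [Nat.cast_sub key.2.1]
    push_cast
    rw [ZMod.natCast_zmod_val]
  rw [e, val_cast key.1]
  exact ⟨by omega, key.2.2⟩

lemma cC (b : Bool) (q : Pos) (h : sdep (net (cell b q))) :
    pC' (sq q 0) (sq q 1) (sq q 2) (cell b q) (cell b (prt b q)) ∧
    ∀ i : Fin 3, sq (prt b q) i = sq q i + dv (cell b q) i - 2 ∧ okd (sq q i) (dv (cell b q) i) := by
  rcases allC_spec chkC b (sq_lt q 0) (sq_lt q 1) (sq_lt q 2) with h1 | h1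
  · rw [show cell b q = 0 from h1 b] at h
    simp [sdep] at h
  have h' : pC b (sq q 0) (sq q 1) (sq q 2) (cell b q) := of_decide_eq_true h1
  have h2 := h' h
  have h3 : ∀ i : Fin 3, sq (prt b q) i = sq q i + dv (cell b q) i - 2 ∧
      okd (sq q i) (dv (cell b q) i) := by
    intro i
    have : okd (sq q i) (dv (cell b q) i) := by
      fin_cases i
      · exact h2.1
      · exact h2.2.1
      · exact h2.2.2.1
    exact ⟨(okd_val (q i) _ this).2, this⟩
  refine ⟨?_, h3⟩
  unfold cell at h2 ⊢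
  rw [(h3 0).1, (h3 1).1, (h3 2).1]
  exact h2

lemma nm_mod (c d : ℕ) (hd : d < 6) : nm (c % 262144) d = nm c d := by
  unfold nm
  simp only [Nat.shiftRight_eq_div_pow]
  interval_cases d <;> norm_num <;> omega

lemma prt_nm (b : Bool) (q : Pos) (h : sdep (net (cell b q))) {d : ℕ} (hd : d < 6) :
    nm (cell b (prt b q)) d = nm (cell b q) d := by
  rw [← nm_mod _ _ hd, (cC b q h).1.2.2.2.2.1, nm_mod _ _ hd]

lemma prt_sdep (b : Bool) (q : Pos) (h : sdep (net (cell b q))) : sdep (net (cell b (prt b q))) :=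
  (cC b q h).1.2.2.2.2.2.1

lemma prt_ncl (b : Bool) (q : Pos) (h : sdep (net (cell b q))) :
    ncl (net (cell b (prt b q))) = ncl (net (cell b q)) := (cC b q h).1.2.2.2.2.2.2.1

lemma prt_prt (b : Bool) (q : Pos) (h : sdep (net (cell b q))) : prt b (prt b q) = q := by
  have h1 := (cC b q h).1.2.2.2.2.2.2.2
  funext i
  have : dv (cell b (prt b q)) i + dv (cell b q) i = 4 := by
    fin_cases i
    · exact h1.1
    · exact h1.2.1
    · exact h1.2.2.1
  have h2 : ((dv (cell b (prt b q)) i : ℕ) : ZMod NN) + (dv (cell b q) i : ℕ) = 4 := by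
    rw [← Nat.cast_add, this]; norm_num
  show q i + (dv (cell b q) i : ZMod NN) - 2 + (dv (cell b (prt b q)) i : ZMod NN) - 2 = q i
  linear_combination h2

lemma prt_par (b : Bool) (q : Pos) (h : sdep (net (cell b q))) :
    par (prt b q) % 2 = (par q + 1) % 2 := by
  obtain ⟨h1, h2⟩ := cC b q h
  have e0 := h2 0
  have e1 := h2 1
  have e2 := h2 2
  have e3 := h1.2.2.2.1
  unfold okd at e0 e1 e2
  unfold par
  simp only [Fin.val_zero, Fin.val_one, Fin.val_two] at e0 e1 e2
  omega

lemma sdep_par (b : Bool) (q : Pos) (h : sdep (net (cell b q))) (h27 : 27 ≤ net (cell b q)) :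
    par q % 2 = 0 := (cC b q h).1.2.2.2.2.2.2.2.2.2.2.1 h27

lemma sdep_nm (b : Bool) (q : Pos) (h : sdep (net (cell b q))) {d : ℕ} (hd : d < 6) :
    nm (cell b q) d = 0 ∨ nm (cell b q) d = 1 ∨ nm (cell b q) d = 5 ∨
      (nm (cell b q) d = 3 ∧ net (cell b q) = 2) := (cC b q h).1.2.2.2.2.2.2.2.2.2.2.2 d hd

lemma nm1_congr {q q' : Pos} (h : ∀ i, cls (sq q' i) = cls (sq q i)) (d : ℕ) : nm1 q' d = nm1 q d := by
  have h0 : ∀ i, (q' i).val = 0 ↔ (q i).val = 0 := fun i => by
    rw [← sq_zero_iff, ← sq_zero_iff]; have := h i; unfold cls at this; split_ifs at this <;> omega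
  have h1 : ∀ i, (q' i).val = 1 ↔ (q i).val = 1 := fun i => by
    rw [← sq_one_iff, ← sq_one_iff]; have := h i; unfold cls at this; split_ifs at this <;> omega
  have h2 : ∀ i, (q' i).val = 5148 ↔ (q i).val = 5148 := fun i => by
    rw [← sq_30_iff, ← sq_30_iff]; have := h i; unfold cls at this; split_ifs at this <;> omega
  have h3 : ∀ i, (q' i).val = 5149 ↔ (q i).val = 5149 := fun i => by
    rw [← sq_31_iff, ← sq_31_iff]; have := h i; unfold cls at this; split_ifs at this <;> omega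
  have h4 : inter q' ↔ inter q := by
    unfold inter; simp only [Ne, h0, h3]
  unfold nm1
  simp only [h0, h1, h2, h4]

lemma prt_nm1 (b : Bool) (q : Pos) (h : sdep (net (cell b q))) (d : ℕ) : nm1 (prt b q) d = nm1 q d := by
  apply nm1_congr
  intro i
  obtain ⟨h1, h2⟩ := (cC b q h).2 i
  rw [h1]; exact h2.1

end Pool.Agent.H247Z.SBC
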