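import Pool.Agent.H247Z.SBC.Bal

/-! Every single-site function is a constant plus a coboundary. -/

set_option autoImplicit false

namespace Pool.Agent.H247Z.SBC

open Finset

attribute [local irreducible] Finset.univ

abbrev TT (g : Tile → ℝ) : Prop := Triv1 RR g

lemma TT.congr {g g' : Tile → ℝ} (h : TT g) (e : ∀ a, g a = g' a) : TT g' := by
  rwa [← show g = g' from funext e]

lemma TT.add {g g' : Tile → ℝ} (h : TT g) (h' : TT g') : TT (fun a => g a + g' a) :=
  Triv.add h h'

lemma TT.sum {g : Pos → Tile → ℝ} (h : ∀ q, TT (g q)) : TT (fun a => ∑ q, g q a) :=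
  Triv.sum univ (fun q X => g q (X 0)) fun q _ => h q

lemma TT_pos (g : Pos → ℝ) : TT (fun a => g a.p) := selfSim.triv_pos g

lemma TT.transfer {g : Tile → ℝ} (h : TT (fun a => ∑ q : Pos, g (sig a q))) : TT g :=
  selfSim.transfer g h

lemma TT_typ (k : Ty → ℝ) : TT (fun a => k (typ a)) := by
  apply TT.transfer
  refine (TT_pos fun p => ∑ q : Pos, k (layG q (decide (net (cell false p) = 0))
    (fun d => shf (nm1 p (f6 d))) (fun _ => idn) (fun d => nameOf (ixq q d)))).congr fun a => ?_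
  simp only [typ_sig]
  rw [balance]
  have e1 : (typ a).2.2 = decide (net (cell false a.p) = 0) := by
    show decide (net (cell (G a.β).2.2 a.p) = 0) = _
    rw [decide_eq_decide]
    exact net_zero_iff _ _
  have e2 : (fun d => shf (n1 (typ a) d)) = fun d => shf (nm1 a.p (f6 d)) := rfl
  rw [e1, e2]

lemma G_bq (a : Tile) (q : Pos) :
    G (bq (enc a.p (G a.β)) q) = if inter q then typ a else lay a.p t0 := by
  by_cases h : inter q
  · rw [bq, if_pos h, if_pos h, G_enc]; rfl
  · rw [bq_shell _ _ h, if_neg h, G_enc]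

lemma TT_tau (k : Pos → Ty → ℝ) : TT (fun a => k a.p (G a.β)) := by
  apply TT.transfer
  apply TT.sum
  intro q
  simp only [sig_p, sig_β, G_bq]
  by_cases h : inter q
  · simp only [if_pos h]; exact TT_typ (k q)
  · simp only [if_neg h]; exact TT_pos fun p => k q (lay p t0)

lemma TT_beta (E : Pos → C → ℝ) : TT (fun a => E a.p a.β) := by
  apply TT.transfer
  apply TT.sum
  intro q
  simp only [sig_p, sig_β]
  exact TT_tau fun p t => E q (bq (enc p t) q)

/-- the wire value on a net that depends on the wire value of the parent -/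
noncomputable def ms (t : Ty) (s : C) (q : Pos) : C := mst t 0 s q (net (cell t.2.2 q)) 0

lemma mst_sdep {n : ℕ} (h : sdep n) (t : Ty) (b s : C) (q : Pos) (β : C) :
    mst t b s q n β = mst t 0 s q n 0 := by
  unfold sdep at h
  unfold mst
  split_ifs <;> first | omega | rfl

lemma mst_not_sdep {n : ℕ} (h : ¬ sdep n) (t : Ty) (b s : C) (q : Pos) (β : C) :
    mst t b s q n β = mst t b 0 q n β := by
  unfold sdep at h
  unfold mst
  split_ifs <;> first | omega | rfl

lemma TT.reduce {f : Tile → ℝ}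
    (h : TT fun a => ∑ q : Pos, if sdep (net (cell (typ a).2.2 q)) then
      f ⟨q, bq (enc a.p (G a.β)) q, ms (typ a) a.s q⟩ else 0) : TT f := by
  apply TT.transfer
  refine (h.add (TT_beta fun p β => ∑ q : Pos, if sdep (net (cell (lay p (G β)).2.2 q)) then 0 else
    f ⟨q, bq (enc p (G β)) q, mst (lay p (G β)) β 0 q (net (cell (lay p (G β)).2.2 q))
      (bq (enc p (G β)) q)⟩)).congr fun a => ?_
  rw [← sum_add_distrib]
  refine sum_congr rfl fun q _ => ?_
  have e : lay a.p (G a.β) = typ a := rfl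
  rw [e]
  by_cases hs : sdep (net (cell (typ a).2.2 q))
  · rw [if_pos hs, if_pos hs, add_zero]
    congr 1
    refine tile_ext (sig_p a q).symm (sig_β a q).symm ?_
    rw [sig_s, mst_sdep hs]; rfl
  · rw [if_neg hs, if_neg hs, zero_add]
    congr 1
    refine tile_ext (sig_p a q).symm (sig_β a q).symm ?_
    rw [sig_s]
    exact (mst_not_sdep hs _ _ _ _ _).symm

lemma typ_child (a : Tile) (q : Pos) (x : C) :
    typ ⟨q, bq (enc a.p (G a.β)) q, x⟩ = lay q (typ a) := by
  rw [typ_mk q, lay_bq, G_enc]; rfl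

noncomputable def upH (H : Ty → C → ℝ) (t : Ty) (s : C) : ℝ :=
  ∑ q : Pos, if sdep (net (cell t.2.2 q)) then H (lay q t) (ms t s q) else 0

lemma TT_upH {H : Ty → C → ℝ} (h : TT fun a => upH H (typ a) a.s) : TT fun a => H (typ a) a.s := by
  apply TT.reduce
  refine h.congr fun a => ?_
  unfold upH
  refine sum_congr rfl fun q _ => ?_
  rw [typ_child]

/-- types all of whose wire names are translations or constants -/
def PT (t : Ty) : Prop := ∀ d, (n2 t d).1.val ≤ 3

def Inv (i : ℕ) (h : C → ℝ) : Prop := ∀ x (m : ℕ), 1 ≤ m → m ≤ i → h (x + ee m) = h x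

def Addv (v : C → C) : Prop := ∀ x m, v (x + ee m) = v x + ee m

lemma pair_step {i : ℕ} {h : C → ℝ} (hi : Inv i h) (j : ℕ) (y : C) {m : ℕ} (h1 : 1 ≤ m)
    (h2 : m ≤ i + 1) :
    h (pj j (y + ee m)) + h (pj (j + 1) (y + ee m)) = h (pj j y) + h (pj (j + 1) y) := by
  rw [pj_add_ee, pj_add_ee]
  by_cases hm : m = 1
  · subst hm
    rw [Nat.cast_one, sub_self]
    have e1 : pj j y + ee 0 = pj (j + 1) y := (pj_succ j y).symm
    have e2 : pj (j + 1) y + ee 0 = pj j y := (pj_succ (j + 1) y).symm.trans (pj_two j y)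
    rw [e1, e2, add_comm]
  · obtain ⟨k, rfl⟩ : ∃ k, m = k + 1 := ⟨m - 1, by omega⟩
    rw [Nat.cast_succ, add_sub_cancel_right, hi _ k (by omega) (by omega),
      hi _ k (by omega) (by omega)]

lemma lay_prt (t : Ty) (q : Pos) (h : sdep (net (cell t.2.2 q))) : lay (prt t.2.2 q) t = lay q t := by
  have h' := prt_sdep _ q h
  refine Prod.ext (funext fun d => prt_nm1 _ q h d) (Prod.ext (funext fun d => ?_) ?_)
  · show nm2 t _ d (nm (cell t.2.2 (prt t.2.2 q)) d) = nm2 t q d (nm (cell t.2.2 q) d)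
    rw [prt_nm _ q h d.2]
    have := sdep_nm _ q h d.2
    unfold nm2 nmG
    rw [if_neg (show ¬ nm (cell t.2.2 q) d = 4 by omega),
      if_neg (show ¬ nm (cell t.2.2 q) d = 4 by omega)]
  · show decide (net (cell t.2.2 (prt t.2.2 q)) = 0) = decide (net (cell t.2.2 q) = 0)
    rw [decide_eq_decide]
    unfold sdep at h h'
    omega

lemma upH_eq (H : Ty → C → ℝ) (t : Ty) (x y : C)
    (h : ∀ q, sdep (net (cell t.2.2 q)) →
      H (lay q t) (ms t x q) + H (lay q t) (ms t x (prt t.2.2 q)) =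
      H (lay q t) (ms t y q) + H (lay q t) (ms t y (prt t.2.2 q))) : upH H t x = upH H t y := by
  have key : ∀ s, 2 * upH H t s = ∑ q ∈ univ.filter (fun q => sdep (net (cell t.2.2 q))),
      (H (lay q t) (ms t s q) + H (lay q t) (ms t s (prt t.2.2 q))) := by
    intro s
    rw [sum_add_distrib, two_mul]
    unfold upH
    rw [← sum_filter]
    congr 1
    symm
    refine sum_nbij' (prt t.2.2) (prt t.2.2) ?_ ?_ ?_ ?_ ?_
    · intro q hq
      rw [mem_filter] at hq ⊢
      exact ⟨mem_univ _, prt_sdep _ q hq.2⟩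
    · intro q hq
      rw [mem_filter] at hq ⊢
      exact ⟨mem_univ _, prt_sdep _ q hq.2⟩
    · intro q hq
      exact prt_prt _ q (mem_filter.1 hq).2
    · intro q hq
      exact prt_prt _ q (mem_filter.1 hq).2
    · intro q hq
      rw [lay_prt t q (mem_filter.1 hq).2]
  have : 2 * upH H t x = 2 * upH H t y := by
    rw [key, key]
    exact sum_congr rfl fun q hq => h q (mem_filter.1 hq).2
  linarith

lemma act_simple {φ : Nm} (h : φ.1.val ≤ 3) :
    (∀ x y, act φ x = act φ y) ∧ (∀ x y, act (shf φ) x = act (shf φ) y) ∨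
      Addv (act φ) ∧ Addv (act (shf φ)) := by
  have a0 : ∀ i, Addv (act (0, i)) := fun i x m => by
    simp [act, base, Sh_Sh]
  have a1 : ∀ i, Addv (act (1, i)) := fun i x m => by
    have h : ∀ y, base 1 y = rho y := fun y => by simp [base]
    simp only [act, h, rho, Sh_Sh, add_neg_cancel, Sh_zero, Sh_add]
    abel
  obtain ⟨⟨b, hb⟩, i⟩ := φ
  simp only at h
  interval_cases b
  · exact Or.inr ⟨a0 _, a0 _⟩
  · exact Or.inr ⟨a1 _, a1 _⟩
  · left; constructor <;> intro x y <;> simp [act, base, shf]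
  · left; constructor <;> intro x y <;> simp [act, base, shf]

lemma rho_addv {v : C → C} (h : Addv v) : Addv fun x => rho (v x) := fun x m => by
  simp only [rho, h x m]; abel

lemma ms_P {t : Ty} (ht : PT t) {n : ℕ} (h2 : n = 2 ∨ (9 ≤ n ∧ n ≤ 20)) :
    (∀ q, sdep (net (cell t.2.2 q)) → ncl (net (cell t.2.2 q)) = n → ∀ x y, ms t x q = ms t y q) ∨
    ∃ v, Addv v ∧ ∀ q, sdep (net (cell t.2.2 q)) → ncl (net (cell t.2.2 q)) = n →
      ∀ x, ms t x q = pj (par q) (v x) := by
  rcases h2 with rfl | ⟨h2, h3⟩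
  · refine Or.inr ⟨id, fun _ _ => rfl, fun q hq hn x => ?_⟩
    have : net (cell t.2.2 q) = 2 := by
      unfold ncl at hn; split_ifs at hn <;> omega
    rw [ms, this, mst_2]; rfl
  by_cases h4 : n < 15
  · obtain ⟨d, rfl⟩ : ∃ d, n = 9 + d := ⟨n - 9, by omega⟩
    have hd : d < 6 := by omega
    have hc : ∀ q, ncl (net (cell t.2.2 q)) = 9 + d →
        net (cell t.2.2 q) = 9 + d ∨ net (cell t.2.2 q) = 27 + d := by
      intro q hn; unfold ncl at hn; split_ifs at hn <;> omega
    rcases act_simple (ht d) with ⟨c1, c2⟩ | ⟨c1, c2⟩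
    · refine Or.inl fun q _ hn x y => ?_
      rcases hc q hn with e | e
      · rw [ms, ms, e, mst_M2 _ _ _ _ _ hd, mst_M2 _ _ _ _ _ hd, c1 x y]
      · rw [ms, ms, e, mst_G2 _ _ _ _ _ hd, mst_G2 _ _ _ _ _ hd, c2]
    · refine Or.inr ⟨act (n2 t d), c1, fun q hq hn x => ?_⟩
      rcases hc q hn with e | e
      · rw [ms, e, mst_M2 _ _ _ _ _ hd]
      · have hp := sdep_par _ q hq (by omega)
        rw [ms, e, mst_G2 _ _ _ _ _ hd, pj_succ, pj_congr (k := 0) hp, pj_congr (k := 0) hp, pj_zero,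
          pj_zero]
        have : act (shf (n2 t d)) (rho (Sh 1 x)) = rho (act (shf (n2 t d)) (Sh 1 x)) := c2 _ 0
        rw [this, rho_rho, act_shf]
  · obtain ⟨d, rfl⟩ : ∃ d, n = 15 + d := ⟨n - 15, by omega⟩
    have hd : d < 6 := by omega
    have hc : ∀ q, ncl (net (cell t.2.2 q)) = 15 + d → net (cell t.2.2 q) = 15 + d := by
      intro q hn; unfold ncl at hn; split_ifs at hn <;> omega
    rcases act_simple (ht d) with ⟨c1, -⟩ | ⟨c1, -⟩
    · refine Or.inl fun q _ hn x y => ?_
      rw [ms, ms, hc q hn, mst_A2 _ _ _ _ _ hd, mst_A2 _ _ _ _ _ hd, c1 x y]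
    · refine Or.inr ⟨_, rho_addv c1, fun q _ hn x => ?_⟩
      rw [ms, hc q hn, mst_A2 _ _ _ _ _ hd]

lemma upH_P {i : ℕ} {H : Ty → C → ℝ} (hH : ∀ t, Inv i (H t)) {t : Ty} (ht : PT t) :
    Inv (i + 1) (upH H t) := by
  intro x m h1 h2
  apply upH_eq
  intro q hq
  have hq' := prt_sdep _ q hq
  have hn := prt_ncl _ q hq
  have hp := prt_par _ q hq
  have h3 : ncl (net (cell t.2.2 q)) = 2 ∨
      (9 ≤ ncl (net (cell t.2.2 q)) ∧ ncl (net (cell t.2.2 q)) ≤ 20) := by
    unfold sdep at hq; unfold ncl; split_ifs <;> omega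
  rcases ms_P ht h3 with c | ⟨v, hv, c⟩
  · rw [c q hq rfl (x + ee m) x, c _ hq' hn (x + ee m) x]
  · rw [c q hq rfl, c q hq rfl, c _ hq' hn, c _ hq' hn, pj_congr hp, pj_congr hp, hv]
    exact pair_step (hH _) _ _ h1 h2

lemma PT_lay {t : Ty} {q : Pos} (hq : sdep (net (cell t.2.2 q)))
    (h : PT t ∨ net (cell t.2.2 q) ≠ 2) : PT (lay q t) := by
  intro d
  have hd : ((f6 d : Fin 6) : ℕ) < 6 := (f6 d).2
  show (nm2 t q (f6 d) (nm (cell t.2.2 q) (f6 d))).1.val ≤ 3
  generalize ((f6 d : Fin 6) : ℕ) = e at hd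
  rcases sdep_nm _ q hq hd with g | g | g | ⟨g, g'⟩
  · rw [g]; unfold nm2 nmG; rw [if_pos rfl]; split_ifs <;> simp
  · rw [g, nm2_1]; simp [idn]
  · rw [g, nm2_5]; simp
  · rw [g, nm2_3]
    rcases h with h | h
    · exact h e
    · exact absurd g' h

lemma upH_Q0 {H : Ty → C → ℝ} (h0 : ∀ t, PT t → ∀ x, H t x = 0) (t : Ty) (ht : PT t) (x : C) :
    upH H t x = 0 := by
  refine sum_eq_zero fun q _ => ?_
  split_ifs with hq
  · exact h0 _ (PT_lay hq (Or.inl ht)) _
  · rfl

lemma upH_Q {i : ℕ} {H : Ty → C → ℝ} (h0 : ∀ t, PT t → ∀ x, H t x = 0) (hH : ∀ t, Inv i (H t))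
    (t : Ty) : Inv (i + 1) (upH H t) := by
  intro x m h1 h2
  apply upH_eq
  intro q hq
  by_cases hn : net (cell t.2.2 q) = 2
  · have hn' : net (cell t.2.2 (prt t.2.2 q)) = 2 := by
      have := prt_ncl _ q hq
      rw [hn] at this
      unfold ncl at this
      split_ifs at this <;> omega
    have hp := prt_par _ q hq
    simp only [ms, hn, hn', mst_2]
    rw [pj_congr hp, pj_congr hp]
    exact pair_step (hH _) _ _ h1 h2
  · have := h0 _ (PT_lay hq (Or.inr hn))
    simp only [this]

lemma inv_const {h : C → ℝ} (hi : Inv 256 h) (x : C) : h x = h 0 := by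
  have key : ∀ x : C, ∀ y, h (y + x) = h y := by
    intro x
    induction x using Pi.single_induction with
    | zero => intro y; rw [add_zero]
    | add f g hf hg => intro y; rw [← add_assoc, hg, hf]
    | single k c =>
      intro y
      have hc : c = 0 ∨ c = 1 := by
        have h2 : c.val < 2 := ZMod.val_lt c
        have h3 : c.val = 0 ∨ c.val = 1 := by omega
        rcases h3 with h3 | h3
        · left; rw [← ZMod.natCast_zmod_val c, h3, Nat.cast_zero]
        · right; rw [← ZMod.natCast_zmod_val c, h3, Nat.cast_one]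
      rcases hc with rfl | rfl
      · rw [Pi.single_zero, add_zero]
      · have hk : k.val < 256 := ZMod.val_lt k
        by_cases h0 : k.val = 0
        · have := hi y 256 (by norm_num) le_rfl
          rwa [show ((256 : ℕ) : ZMod 256) = k by
            rw [(ZMod.val_eq_zero k).1 h0]; exact ZMod.natCast_self 256] at this
        · have := hi y k.val (by omega) (by omega)
          rwa [ZMod.natCast_zmod_val] at this
  have := key x 0
  rwa [zero_add] at this

lemma TT_Q (j : ℕ) : ∀ i, i + j = 256 → ∀ H : Ty → C → ℝ, (∀ t, PT t → ∀ x, H t x = 0) →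
    (∀ t, Inv i (H t)) → TT fun a => H (typ a) a.s := by
  induction j with
  | zero =>
    intro i hi H _ h
    obtain rfl : i = 256 := hi
    exact (TT_typ fun t => H t 0).congr fun a => (inv_const (h _) _).symm
  | succ j ih =>
    intro i hi H h0 h
    exact TT_upH (ih (i + 1) (by omega) _ (upH_Q0 h0) (upH_Q h0 h))

lemma inv_zero (h : C → ℝ) : Inv 0 h := fun _ _ _ _ => by omega

open Classical in
lemma TT_P (j : ℕ) : ∀ i, i + j = 256 → ∀ H : Ty → C → ℝ,
    (∀ t, PT t → Inv i (H t)) → TT fun a => H (typ a) a.s := by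
  have split : ∀ H : Ty → C → ℝ, (TT fun a => if PT (typ a) then H (typ a) a.s else 0) →
      TT fun a => H (typ a) a.s := by
    intro H h
    refine (h.add (TT_Q 256 0 rfl (fun t x => if PT t then 0 else H t x)
      (fun t ht x => if_pos ht) fun t => inv_zero _)).congr fun a => ?_
    split_ifs <;> simp
  induction j with
  | zero =>
    intro i hi H h
    obtain rfl : i = 256 := hi
    apply split
    refine (TT_typ fun t => if PT t then H t 0 else 0).congr fun a => ?_
    split_ifs with ht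
    · exact (inv_const (h _ ht) _).symm
    · rfl
  | succ j ih =>
    intro i hi H h
    apply split
    apply TT_upH (H := fun t x => if PT t then H t x else 0)
    refine ih (i + 1) (by omega) _ fun t ht => upH_P (fun t' x m h1 h2 => ?_) ht
    split_ifs with ht'
    · exact h t' ht' x m h1 h2
    · rfl

lemma TT_H (H : Ty → C → ℝ) : TT fun a => H (typ a) a.s :=
  TT_P 256 0 rfl H fun _ _ => inv_zero _

lemma TT_F1 (F : Pos → Ty → C → ℝ) : TT fun a => F a.p (typ a) a.s := by
  apply TT.reduce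
  refine (TT_H fun t s => ∑ q : Pos, if sdep (net (cell t.2.2 q)) then
    F q (lay q t) (ms t s q) else 0).congr fun a => ?_
  refine sum_congr rfl fun q _ => ?_
  rw [typ_child]

lemma TT_F2 (F : Pos → Ty → C → ℝ) : TT fun a => F a.p (G a.β) a.s := by
  apply TT.reduce
  refine (TT_F1 fun p t s => ∑ q : Pos, if sdep (net (cell t.2.2 q)) then
    F q (if inter q then t else lay p t0) (ms t s q) else 0).congr fun a => ?_
  simp only [G_bq]

theorem TT_all (f : Tile → ℝ) : TT f := by
  apply TT.reduce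
  exact TT_F2 fun p τ s => ∑ q : Pos, if sdep (net (cell (lay p τ).2.2 q)) then
    f ⟨q, bq (enc p τ) q, ms (lay p τ) s q⟩ else 0

theorem good_tile : Good RR := selfSim.good TT_all

end Pool.Agent.H247Z.SBC
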