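import Mathlib

/-! Interface between the construction (helper247) and the general layer:
nearest-neighbour subshifts of finite type on `ℤ³`, local functions, coboundaries. -/

set_option autoImplicit false

namespace Pool.Agent.H247Z.SBC

/-- Sites of `ℤ³`. -/
abbrev Pt := Fin 3 → ℤ

/-- Configurations over the tile set `α`. -/
abbrev Cfg (α : Type) := Pt → α

/-- Unit vector. -/
def uv (i : Fin 3) : Pt := Pi.single i 1

/-- Shift: `(sh v X) i = X (i + v)`. -/
def sh {α : Type} (v : Pt) (X : Cfg α) : Cfg α := fun i => X (i + v)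

/-- `X` obeys the nearest-neighbour rule `R` everywhere. -/
def Valid {α : Type} (R : Fin 3 → α → α → Prop) (X : Cfg α) : Prop :=
  ∀ (v : Pt) (i : Fin 3), R i (X v) (X (v + uv i))

/-- `f` depends on finitely many sites. -/
def Local {α : Type} (f : Cfg α → ℝ) : Prop :=
  ∃ D : Finset Pt, ∀ X Y : Cfg α, (∀ i ∈ D, X i = Y i) → f X = f Y

/-- Functions that agree on valid configurations with a finite sum of local coboundaries. -/
inductive Cob {α : Type} (R : Fin 3 → α → α → Prop) : (Cfg α → ℝ) → Prop
  | base (g : Cfg α → ℝ) (hg : Local g) (v : Pt) : Cob R (fun X => g (sh v X) - g X)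
  | zero : Cob R (fun _ => 0)
  | add {f g : Cfg α → ℝ} : Cob R f → Cob R g → Cob R (fun X => f X + g X)
  | congr {f g : Cfg α → ℝ} : Cob R f → (∀ X, Valid R X → f X = g X) → Cob R g

/-- `f` is a constant plus a coboundary on the valid configurations. -/
def Triv {α : Type} (R : Fin 3 → α → α → Prop) (f : Cfg α → ℝ) : Prop :=
  ∃ c : ℝ, Cob R (fun X => f X - c)

/-- What the construction delivers. -/
structure Good {α : Type} (R : Fin 3 → α → α → Prop) : Prop where
  nonempty : ∃ X, Valid R X
  aperiodic : ∀ X, Valid R X → ∀ a : Pt, a ≠ 0 → sh a X ≠ X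
  triv : ∀ f : Cfg α → ℝ, Local f → Triv R f

end Pool.Agent.H247Z.SBC
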