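import Pool.Agent.H247Z.SBC.Match
import Pool.Agent.H460Z.SubLayer

/-! Every valid configuration is a substitution image; the tile set is self-similar. -/

set_option autoImplicit false

namespace Pool.Agent.H247Z.SBC

lemma cell_mkp (b : Bool) {x y z : ℕ} (hx : x < 28) (hy : y < 28) (hz : z < 28) :
    cell b (mkp x y z) = cc b x y z := by
  obtain ⟨h1, h2, h3⟩ := sq_mkp (x := x) (y := y) (z := z) (by omega) (by omega) (by omega)
  unfold cell
  rw [h1, h2, h3]
  simp only [sm, if_pos hx, if_pos hy, if_pos hz]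

lemma par_mkp {x y z : ℕ} (hx : x < 28) (hy : y < 28) (hz : z < 28) :
    par (mkp x y z) = x + y + z := by
  obtain ⟨h1, h2, h3⟩ := sq_mkp (x := x) (y := y) (z := z) (by omega) (by omega) (by omega)
  unfold par
  rw [h1, h2, h3]
  simp only [sm, if_pos hx, if_pos hy, if_pos hz]

lemma inter_mkp {x y z : ℕ} (hx : 0 < x ∧ x < 28) (hy : 0 < y ∧ y < 28) (hz : 0 < z ∧ z < 28) :
    inter (mkp x y z) := by
  obtain ⟨h1, h2, h3⟩ := mkp_val (x := x) (y := y) (z := z) (by omega) (by omega) (by omega)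
  intro i
  fin_cases i
  · simp only [Fin.zero_eta]; omega
  · simp only [Fin.mk_one]; omega
  · simp only [Fin.reduceFinMk]; omega

lemma up_mkp1 (x y z : ℕ) : up (mkp x y z) 1 = mkp x (y + 1) z := by
  funext i; fin_cases i <;> simp [up, mkp]
lemma up_mkp2 (x y z : ℕ) : up (mkp x y z) 2 = mkp x y (z + 1) := by
  funext i; fin_cases i <;> simp [up, mkp]

lemma tile_ext {a a' : Tile} (h1 : a.p = a'.p) (h2 : a.β = a'.β) (h3 : a.s = a'.s) : a = a' := by
  cases a; cases a'
  simp only [Tile.mk.injEq]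
  exact ⟨h1, h2, h3⟩

lemma typ_mk (p : Pos) (b s : C) : typ ⟨p, b, s⟩ = lay p (G b) := rfl
lemma sig_mk (p : Pos) (b s : C) : sig ⟨p, b, s⟩ = sigh (enc p (G b)) b s := rfl

def dist1 (q : Pos) : ℕ := ∑ i, (if (q i).val = 0 then 1 else (q i).val - 1)

lemma dist1_lt {q q' : Pos} {i : Fin 3} (h : ∀ j, j ≠ i → q' j = q j)
    (hi : (if (q' i).val = 0 then 1 else (q' i).val - 1) < (if (q i).val = 0 then 1 else (q i).val - 1)) :
    dist1 q' < dist1 q := by
  apply Finset.sum_lt_sum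
  · intro j _
    by_cases hj : j = i
    · rw [hj]; exact hi.le
    · rw [h j hj]
  · exact ⟨i, Finset.mem_univ _, hi⟩

section block
variable {B : Pos → Tile} (hp : ∀ q, (B q).p = q)
  (hR : ∀ q (i : Fin 3), (q i).val ≠ 5149 → RR i (B q) (B (up q i)))
include hp hR

lemma block_c1 (q : Pos) (i : Fin 3) (hq : (q i).val ≠ 5149) :
    act (nm1 q (2 * i + 1)) (B q).β = act (nm1 (up q i) (2 * i)) (B (up q i)).β := by
  have h := (hR q i hq).2.2.2.1
  unfold typ at h
  rwa [n1_lay _ _ (by omega), n1_lay _ _ (by omega), hp, hp] at h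

lemma block_β (q : Pos) : (B q).β = bq (B (mkp 1 1 1)).β q := by
  induction hn : dist1 q using Nat.strong_induction_on generalizing q with
  | _ n ih =>
    by_cases h1 : ∀ i, (q i).val = 1
    · have : q = mkp 1 1 1 := by
        apply eq_mkp (by norm_num) (by norm_num) (by norm_num) <;> rw [sq_one_iff] <;> exact h1 _
      rw [this, bq, if_pos (inter_mkp (by norm_num) (by norm_num) (by norm_num))]
    · push Not at h1
      obtain ⟨i, hi⟩ := h1
      have hl := val_lt q i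
      by_cases h0 : (q i).val = 0
      · have hv := up_val q i
        have h2 := ih _ (hn ▸ dist1_lt (q := q) (q' := up q i) (i := i) (fun j hj => up_ne q hj)
          (by rw [if_pos h0, if_neg (by omega)]; omega)) (up q i) rfl
        have h3 := block_c1 hp hR q i (by omega)
        have h4 := c1_in (B (mkp 1 1 1)).β q i (by omega)
        rw [h2, ← h4, nm1_odd, if_neg (by omega), act_idn, act_idn] at h3
        exact h3
      · have hv := dn_val q i
        have h2 := ih _ (hn ▸ dist1_lt (q := q) (q' := dn q i) (i := i) (fun j hj => dn_ne q hj)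
          (by rw [if_neg h0, if_neg (by omega)]; omega)) (dn q i) rfl
        have h3 := block_c1 hp hR (dn q i) i (by omega)
        have h4 := c1_in (B (mkp 1 1 1)).β (dn q i) i (by omega)
        rw [h2, h4, up_dn, nm1_even, if_neg h0, if_neg (by omega), act_idn, act_idn] at h3
        exact h3.symm

lemma block_typ (q : Pos) : typ (B q) = lay q (G (B (mkp 1 1 1)).β) := by
  unfold typ
  rw [hp, block_β hp hR q, lay_bq]

lemma block_c2 (q : Pos) (i : Fin 3) (hq : (q i).val ≠ 5149) {t : Ty}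
    (ht : t = G (B (mkp 1 1 1)).β) :
    act (nm2 t q (2 * i + 1) (nm (cell t.2.2 q) (2 * i + 1))) (B q).s =
      rho (act (nm2 t (up q i) (2 * i) (nm (cell t.2.2 (up q i)) (2 * i))) (B (up q i)).s) := by
  have h := (hR q i hq).2.2.2.2
  rwa [block_typ hp hR, block_typ hp hR, n2_lay _ _ (by omega), n2_lay _ _ (by omega), ← ht] at h

lemma block_s (hok : ∀ q, ok (B q)) {t : Ty} (ht : t = G (B (mkp 1 1 1)).β) (q : Pos) :
    (B q).s = mst t (Sh (-1) (B (mkp 16 16 16)).s) (Sh (-1) (B (mkp 12 12 12)).s) q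
      (net (cell t.2.2 q)) (bq (B (mkp 1 1 1)).β q) := by
  induction hn : meas t.2.2 q using Nat.strong_induction_on generalizing q with
  | _ n ih =>
    by_cases h0 : net (cell t.2.2 q) = 0
    · rw [h0, mst_0, ← block_β hp hR q]
      apply hok q
      rw [block_typ hp hR, z_lay, ← ht]
      exact h0
    by_cases h1 : q = mkp 16 16 16
    · rw [h1, cell_mkp _ (by norm_num) (by norm_num) (by norm_num), (chkF _).1, mst_1,
        par_mkp (by norm_num) (by norm_num) (by norm_num), pj_congr (k := 0) (by norm_num), pj_zero,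
        Sh_Sh, add_neg_cancel, Sh_zero]
    by_cases h2 : q = mkp 12 12 12
    · rw [h2, cell_mkp _ (by norm_num) (by norm_num) (by norm_num), (chkF _).2.1, mst_2,
        par_mkp (by norm_num) (by norm_num) (by norm_num), pj_congr (k := 0) (by norm_num), pj_zero,
        Sh_Sh, add_neg_cancel, Sh_zero]
    obtain ⟨i, ⟨g1, g2, g3, g4⟩ | ⟨g1, g2, g3, g4⟩⟩ := pred t.2.2 q h0 h1 h2
    · have e1 := block_c2 hp hR (dn q i) i g1 ht
      have e2 := match0 t (Sh (-1) (B (mkp 16 16 16)).s) (Sh (-1) (B (mkp 12 12 12)).s) (dn q i) i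
        (bq (B (mkp 1 1 1)).β (dn q i)) (bq (B (mkp 1 1 1)).β q) g3
      rw [ih _ (hn ▸ g4) (dn q i) rfl, e2, up_dn, g2, nm2_1, act_idn, act_idn] at e1
      exact (rho_inj e1).symm
    · have e1 := block_c2 hp hR q i g1 ht
      have e2 := match0 t (Sh (-1) (B (mkp 16 16 16)).s) (Sh (-1) (B (mkp 12 12 12)).s) q i
        (bq (B (mkp 1 1 1)).β q) (bq (B (mkp 1 1 1)).β (up q i)) g3
      rw [ih _ (hn ▸ g4) (up q i) rfl, ← e2, g2, nm2_1, act_idn, act_idn] at e1
      exact e1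

omit hp hR in
lemma term_chk {β b s : C} {t : Ty} {β1 β2 : C} {c c' : ℕ} {q q' : Pos} {d d' : ℕ}
    (h : act (nm2 t q d (nm c d)) (mst t b s q (net c) β1) =
      rho (act (nm2 t q' d' (nm c' d')) (mst t b s q' (net c') β2)))
    (f1 : net c = 1) (f2 : nm c d = 6) (f3 : net c' = 0) (f4 : nm c' d' = 7) (hq : par q % 2 = 0)
    (hβ : β2 = β) : enc (dec β).1 (G b) = β := by
  rw [f1, f2, f3, f4, nm2_6, nm2_7, mst_1, mst_0, pj_congr (k := 0) hq, pj_zero, act_81, act_9,
    rho_rho, hβ] at h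
  have e2 := Sh_inj _ h
  unfold chk at e2
  split_ifs at e2 with hc
  · rw [(enc_inj e2).2]; exact hc
  · exact absurd e2 (enc_ne_junk _ _)

omit hp hR in
lemma bridge_chk {b s : C} {t : Ty} {β1 β2 : C} {c c' : ℕ} {q q' : Pos} {d d' : ℕ}
    (h : act (nm2 t q d (nm c d)) (mst t b s q (net c) β1) =
      rho (act (nm2 t q' d' (nm c' d')) (mst t b s q' (net c') β2)))
    (f1 : net c = 2) (f2 : nm c d = 1) (f3 : net c' = 1) (f4 : nm c' d' = 1)
    (hq : (par q' + 1) % 2 = par q % 2) : s = b := by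
  rw [f1, f2, f3, f4, nm2_1, nm2_1, mst_1, mst_2, act_idn, act_idn, ← pj_succ, pj_congr hq] at h
  exact pj_inj _ h

lemma block (hok : ∀ q, ok (B q)) : ∃ a, ok a ∧ B = sig a := by
  obtain ⟨β, hβ⟩ : ∃ β, β = (B (mkp 1 1 1)).β := ⟨_, rfl⟩
  obtain ⟨b, hb⟩ : ∃ b, b = Sh (-1) (B (mkp 16 16 16)).s := ⟨_, rfl⟩
  obtain ⟨s, hs⟩ : ∃ s, s = Sh (-1) (B (mkp 12 12 12)).s := ⟨_, rfl⟩
  have hS := block_s hp hR hok (t := G β) (by rw [hβ])
  rw [← hβ, ← hb, ← hs] at hS
  have hB : B = sigh β b s := by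
    funext q
    have h1 := hp q
    have h2 := block_β hp hR q
    have h3 := hS q
    rw [← hβ] at h2
    exact tile_ext h1 h2 h3
  have hv := mkp_val (x := 15) (y := 19) (z := 16) (by norm_num) (by norm_num) (by norm_num)
  have e1 := block_c2 hp hR (mkp 15 19 16) 1 (by rw [hv.2.1]; norm_num) (t := G β) (by rw [hβ])
  obtain ⟨-, -, f1, f2, f3, f4⟩ := chkF (G β).2.2
  rw [← cell_mkp _ (by norm_num) (by norm_num) (by norm_num)] at f1 f2 f3 f4
  have u1 : up (mkp 15 19 16) 1 = mkp 15 20 16 := by rw [up_mkp1]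
  have d1 : 2 * ((1 : Fin 3) : ℕ) + 1 = 3 := by decide
  have d2 : 2 * ((1 : Fin 3) : ℕ) = 2 := by decide
  rw [hS, hS, u1, d1, d2] at e1
  have e3 : enc (dec β).1 (G b) = β := term_chk e1 f1 f2 f3 f4
    (by rw [par_mkp (by norm_num) (by norm_num) (by norm_num)])
    (if_pos (inter_mkp (by norm_num) (by norm_num) (by norm_num)))
  refine ⟨⟨(dec β).1, b, s⟩, ?_, by rw [sig_mk, e3]; exact hB⟩
  intro hz
  have ht : typ ⟨(dec β).1, b, s⟩ = G β := by rw [typ_mk, ← G_enc, e3]
  rw [ht] at hz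
  have hv := mkp_val (x := 14) (y := 12) (z := 14) (by norm_num) (by norm_num) (by norm_num)
  have e4 := block_c2 hp hR (mkp 14 12 14) 2 (by rw [hv.2.2]; norm_num) (t := G β) (by rw [hβ])
  obtain ⟨f1, f2, f3, f4⟩ := chkG
  rw [← cell_mkp _ (by norm_num) (by norm_num) (by norm_num)] at f1 f2 f3 f4
  have u2 : up (mkp 14 12 14) 2 = mkp 14 12 15 := by rw [up_mkp2]
  have d3 : 2 * ((2 : Fin 3) : ℕ) + 1 = 5 := by decide
  have d4 : 2 * ((2 : Fin 3) : ℕ) = 4 := by decide
  rw [hS, hS, u2, hz, d3, d4] at e4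
  exact bridge_chk e4 f1 f2 f3 f4 (by
    rw [par_mkp (by norm_num) (by norm_num) (by norm_num),
      par_mkp (by norm_num) (by norm_num) (by norm_num)])

end block

def edge (x : ℕ) (i : Fin 3) : Pos := Function.update (mkp x x x) i (-1)

lemma edge_val (x : ℕ) (i : Fin 3) : (edge x i i).val = 5149 := by
  rw [← eq_neg_one_iff]; simp [edge]

lemma cell_edge (b : Bool) {x : ℕ} (hx : x < 28) (i : Fin 3) :
    cell b (edge x i) = cu b x x x i 31 ∧ cell b (up (edge x i) i) = cu b x x x i 0 := by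
  obtain ⟨h1, h2, h3⟩ := sq_mkp (x := x) (y := x) (z := x) (by omega) (by omega) (by omega)
  have h4 : sm x = x := by simp only [sm, if_pos hx]
  rw [h4] at h1 h2 h3
  have e1 := cu_eq b (sq (mkp x x x)) i 31
  have e2 := cu_eq b (sq (mkp x x x)) i 0
  rw [h1, h2, h3] at e1 e2
  rw [e1, e2]
  have k1 : sq (edge x i) = Function.update (sq (mkp x x x)) i 31 := by
    funext j
    by_cases hj : j = i
    · rw [hj, Function.update_self, sq_31_iff]; exact edge_val x i
    · rw [Function.update_of_ne hj]; simp only [sq, edge, Function.update_of_ne hj]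
  have k2 : sq (up (edge x i) i) = Function.update (sq (mkp x x x)) i 0 := by
    rw [sq_up, k1, (sq_zero_iff _ _).2 (up_top (edge_val x i)), Function.update_idem]
  rw [← k1, ← k2]
  exact ⟨rfl, rfl⟩

lemma cross {a a' : Tile} (ha : ok a) (ha' : ok a') (i : Fin 3)
    (h : ∀ q : Pos, (q i).val = 5149 → RR i (sig a q) (sig a' (up q i))) : RR i a a' := by
  have hP : 2 * (i : ℕ) + 1 < 6 := by omega
  have hM : 2 * (i : ℕ) < 6 := by omega
  have e : ∀ q x, rho (pj (par (up q i)) x) = pj (par q) x := fun q x => by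
    have hp := par_up q i
    rw [← pj_succ]; exact pj_congr (by omega) x
  obtain ⟨-, -, -, g1, g2⟩ := h _ (edge_val 16 i)
  obtain ⟨-, -, -, -, g3⟩ := h _ (edge_val 12 i)
  obtain ⟨f1, f2, -, -, f5, f6, -, -⟩ := chkH (typ a).2.2 i i.2
  obtain ⟨-, -, f3, f4, -, -, f7, f8⟩ := chkH (typ a').2.2 i i.2
  rw [typ_sig, typ_sig, n1_lay _ _ hP, n1_lay _ _ hM, sig_β, sig_β, c1_top _ _ (edge_val 16 i),
    c1_bot _ _ (up_top (edge_val 16 i))] at g1
  rw [typ_sig, typ_sig, n2_lay _ _ hP, n2_lay _ _ hM, sig_s, sig_s,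
    (cell_edge _ (by norm_num) i).1, (cell_edge _ (by norm_num) i).2] at g2 g3
  rw [f1, f2, f3, f4, nm2_1, nm2_1, act_idn, act_idn, mst_A1 _ _ _ _ _ hP, mst_A1 _ _ _ _ _ hM,
    e] at g2
  rw [f5, f6, f7, f8, nm2_1, nm2_1, act_idn, act_idn, mst_M2 _ _ _ _ _ hP, mst_A2 _ _ _ _ _ hM,
    e] at g3
  refine ⟨ha, ha', ?_, pj_inj _ g2, pj_inj _ g3⟩
  rw [(enc_inj g1).1, sub_add_cancel]

lemma sig_inj {a a' : Tile} (h : sig a = sig a') : a = a' := by
  have h1 := congrArg Tile.β (congrFun h (mkp 1 1 1))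
  have hi : inter (mkp 1 1 1) := inter_mkp (by norm_num) (by norm_num) (by norm_num)
  rw [sig_β, sig_β, bq, bq, if_pos hi, if_pos hi] at h1
  have h2 := congrArg Tile.s (congrFun h (mkp 16 16 16))
  have h3 := congrArg Tile.s (congrFun h (mkp 12 12 12))
  rw [sig_s, sig_s, cell_mkp _ (by norm_num) (by norm_num) (by norm_num),
    cell_mkp _ (by norm_num) (by norm_num) (by norm_num)] at h2 h3
  rw [(chkF _).1, (chkF _).1, mst_1, mst_1] at h2
  rw [(chkF _).2.1, (chkF _).2.1, mst_2, mst_2] at h3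
  cases a; cases a'
  simp only [Tile.mk.injEq]
  exact ⟨(enc_inj h1).1, pj_inj _ h2, pj_inj _ h3⟩

end Pool.Agent.H247Z.SBC
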