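import Pool.Agent.H247Z.SBC.Chain

/-! The tile set over `Fin K`. -/

set_option autoImplicit false

namespace Pool.Agent.H247Z.SBC

lemma Good.transport {α β : Type} {R : Fin 3 → α → α → Prop} (h : Good R) (e : α ≃ β) :
    Good (fun i a b => R i (e.symm a) (e.symm b)) := by
  have hc : ∀ f : Cfg α → ℝ, Cob R f →
      Cob (fun i a b => R i (e.symm a) (e.symm b)) (fun X => f (fun v => e.symm (X v))) := by
    intro f hf
    induction hf with
    | base g hg v =>
      obtain ⟨D, hD⟩ := hg
      exact Cob.base (fun X => g (fun v => e.symm (X v)))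
        ⟨D, fun X Y h => hD _ _ fun i hi => by rw [h i hi]⟩ v
    | zero => exact Cob.zero
    | add _ _ h1 h2 => exact h1.add h2
    | congr _ h1 h2 => exact h2.congr fun X hX => h1 _ hX
  refine ⟨?_, ?_, ?_⟩
  · obtain ⟨X, hX⟩ := h.nonempty
    exact ⟨fun v => e (X v), fun v i => by simpa using hX v i⟩
  · intro X hX a ha he
    apply h.aperiodic (fun v => e.symm (X v)) hX a ha
    funext v
    exact congrArg e.symm (congrFun he v)
  · rintro f ⟨D, hD⟩
    obtain ⟨c, hcc⟩ := h.triv (fun X => f (fun v => e (X v)))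
      ⟨D, fun X Y h => hD _ _ fun i hi => by rw [h i hi]⟩
    exact ⟨c, (hc _ hcc).congr fun X _ => by simp⟩

theorem good : ∃ K : ℕ, ∃ R : Fin 3 → Fin K → Fin K → Prop, Good R :=
  ⟨_, _, good_tile.transport (Finite.equivFin Tile)⟩

end Pool.Agent.H247Z.SBC
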