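import Pool.Agent.H247Z.SBC.Cells

/-! The substitution respects the matching rule. -/

set_option autoImplicit false

namespace Pool.Agent.H247Z.SBC

lemma f6_val {d : ℕ} (hd : d < 6) : ((f6 d : Fin 6) : ℕ) = d := Nat.mod_eq_of_lt hd
lemma f6_add (d : ℕ) (k : ℕ) : f6 (6 * k + d) = f6 d := by
  unfold f6; congr 1; omega
lemma f6_fin (d : Fin 6) : f6 d = d := Fin.ext (f6_val d.2)
lemma f3_odd (i : Fin 3) : f3 ((2 * i + 1) / 2) = i := by
  apply Fin.ext; simp only [f3]; omega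
lemma f3_even (i : Fin 3) : f3 ((2 * i) / 2) = i := by
  apply Fin.ext; simp only [f3]; omega

lemma n1_lay (q : Pos) (t : Ty) {d : ℕ} (hd : d < 6) : n1 (lay q t) d = nm1 q d := by
  simp only [n1, lay, f6_val hd]
lemma n2_lay (q : Pos) (t : Ty) {d : ℕ} (hd : d < 6) :
    n2 (lay q t) d = nm2 t q d (nm (cell t.2.2 q) d) := by
  simp only [n2, lay, f6_val hd]
lemma z_lay (q : Pos) (t : Ty) : (lay q t).2.2 = true ↔ net (cell t.2.2 q) = 0 := by
  simp only [lay, decide_eq_true_eq]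

lemma nm2_le {t t' : Ty} {q : Pos} {d c : ℕ} (h : c ≤ 1) : nm2 t q d c = nm2 t' q d c := by
  unfold nm2 nmG
  interval_cases c <;> simp

lemma lay_shell {q : Pos} (hq : ¬ inter q) (t t' : Ty) : lay q t = lay q t' := by
  have h1 := shell t.2.2 q hq
  have h2 := shell t'.2.2 q hq
  unfold lay
  rw [h2.1, ← h1.1]
  refine Prod.ext rfl (Prod.ext ?_ rfl)
  funext d
  exact nm2_le (h1.2 d d.2)

lemma lay_bq (β : C) (q : Pos) : lay q (G (bq β q)) = lay q (G β) := by
  by_cases h : inter q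
  · simp [bq, h]
  · exact lay_shell h _ _

lemma typ_sigh (β b s : C) (q : Pos) : typ (sigh β b s q) = lay q (G β) := lay_bq β q

lemma ok_sigh (β b s : C) (q : Pos) : ok (sigh β b s q) := by
  intro h
  rw [typ_sigh, z_lay] at h
  simp only [sigh, mst, h, if_true]

lemma inter_up (q : Pos) (i : Fin 3) : ∃ o : Prop,
    (inter q ↔ o ∧ (q i).val ≠ 0 ∧ (q i).val ≠ 5149) ∧
    (inter (up q i) ↔ o ∧ (up q i i).val ≠ 0 ∧ (up q i i).val ≠ 5149) := by
  refine ⟨∀ j, j ≠ i → (q j).val ≠ 0 ∧ (q j).val ≠ 5149, ⟨fun h => ⟨fun j _ => h j, h i⟩, ?_⟩,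
    ⟨fun h => ⟨fun j hj => by rw [← up_ne q hj]; exact h j, h i⟩, ?_⟩⟩
  · rintro ⟨h1, h2⟩ j
    by_cases hj : j = i
    · rw [hj]; exact h2
    · exact h1 j hj
  · rintro ⟨h1, h2⟩ j
    by_cases hj : j = i
    · rw [hj]; exact h2
    · rw [up_ne q hj]; exact h1 j hj

lemma nm1_odd (q : Pos) (i : Fin 3) :
    nm1 q (2 * i + 1) = if inter q ∧ (q i).val = 5148 then (4, 0) else idn := by
  unfold nm1
  rw [if_pos (by omega), f3_odd]
lemma nm1_even (q : Pos) (i : Fin 3) :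
    nm1 q (2 * i) = if (q i).val = 0 then (⟨5 + i.val % 3, by omega⟩, 0)
      else if inter q ∧ (q i).val = 1 then (4, 0) else idn := by
  unfold nm1
  rw [if_neg (by omega), f3_even]
  simp only [show 2 * (i : ℕ) / 2 = i by omega]

lemma c1_in (β : C) (q : Pos) (i : Fin 3) (hq : (q i).val ≠ 5149) :
    act (nm1 q (2 * i + 1)) (bq β q) = act (nm1 (up q i) (2 * i)) (bq β (up q i)) := by
  obtain ⟨o, h1, h2⟩ := inter_up q i
  have hv := up_val q i
  have hl := val_lt q i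
  rw [nm1_odd, nm1_even, if_neg (show ¬ (up q i i).val = 0 by omega)]
  unfold bq
  by_cases a1 : inter q <;> by_cases a2 : inter (up q i)
  · have := h1.1 a1
    have := h2.1 a2
    rw [if_neg (show ¬ (inter q ∧ (q i).val = 5148) by omega),
      if_neg (show ¬ (inter (up q i) ∧ (up q i i).val = 1) by omega), if_pos a1, if_pos a2]
  · have h3 := h1.1 a1
    have h4 : (q i).val = 5148 := by
      by_contra hne
      exact a2 (h2.2 ⟨h3.1, by omega, by omega⟩)
    simp [a1, a2, h4]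
  · have h3 := h2.1 a2
    have h4 : (up q i i).val = 1 := by
      by_contra hne
      exact a1 (h1.2 ⟨h3.1, by omega, by omega⟩)
    simp [a1, a2, h4]
  · simp [a1, a2]

lemma proj_enc (p : Pos) (t : Ty) : proj (enc p t) = enc p t0 := by simp [proj]

lemma not_inter_top {q : Pos} {i : Fin 3} (hq : (q i).val = 5149) : ¬ inter q :=
  fun h => (h i).2 hq
lemma not_inter_bot {q : Pos} {i : Fin 3} (hq : (q i).val = 0) : ¬ inter q :=
  fun h => (h i).1 hq
lemma up_top {q : Pos} {i : Fin 3} (hq : (q i).val = 5149) : (up q i i).val = 0 := by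
  rw [up_val, hq]

lemma c1_top (p : Pos) (t : Ty) {q : Pos} {i : Fin 3} (hq : (q i).val = 5149) :
    act (nm1 q (2 * i + 1)) (bq (enc p t) q) = enc p t0 := by
  rw [nm1_odd]
  simp [bq, not_inter_top hq, proj_enc]
lemma c1_bot (p : Pos) (t : Ty) {q : Pos} {i : Fin 3} (hq : (q i).val = 0) :
    act (nm1 q (2 * i)) (bq (enc p t) q) = enc (p - Pi.single i 1) t0 := by
  rw [nm1_even, if_pos hq, act_dec]
  simp [bq, not_inter_bot hq, proj_enc]

section mst
variable (t : Ty) (b s : C) (q : Pos) (β : C)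

lemma n1_add (d k : ℕ) : n1 t (6 * k + d) = n1 t d := by simp only [n1, f6_add]
lemma n2_add (d k : ℕ) : n2 t (6 * k + d) = n2 t d := by simp only [n2, f6_add]

lemma mst_0 : mst t b s q 0 β = β := by simp [mst]
lemma mst_1 : mst t b s q 1 β = pj (par q) b := by simp [mst]
lemma mst_2 : mst t b s q 2 β = pj (par q) s := by simp [mst]
lemma mst_A1 {d : ℕ} (hd : d < 6) : mst t b s q (3 + d) β = pj (par q) (act (n1 t d) b) := by
  unfold mst
  rw [if_neg (by omega), if_neg (by omega), if_neg (by omega), if_pos (by omega),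
    show 3 + d + 3 = 6 * 1 + d by omega, n1_add]
lemma mst_M2 {d : ℕ} (hd : d < 6) : mst t b s q (9 + d) β = pj (par q) (act (n2 t d) s) := by
  unfold mst
  rw [if_neg (by omega), if_neg (by omega), if_neg (by omega), if_neg (by omega), if_pos (by omega),
    show 9 + d + 3 = 6 * 2 + d by omega, n2_add]
lemma mst_A2 {d : ℕ} (hd : d < 6) : mst t b s q (15 + d) β = pj (par q) (rho (act (n2 t d) s)) := by
  unfold mst
  rw [if_neg (by omega), if_neg (by omega), if_neg (by omega), if_neg (by omega), if_neg (by omega),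
    if_pos (by omega), show 15 + d + 3 = 6 * 3 + d by omega, n2_add]
lemma mst_G1 {d : ℕ} (hd : d < 6) :
    mst t b s q (21 + d) β = rho (act (shf (n1 t d)) (pj (par q + 1) b)) := by
  unfold mst
  rw [if_neg (by omega), if_neg (by omega), if_neg (by omega), if_neg (by omega), if_neg (by omega),
    if_neg (by omega), if_pos (by omega), show 21 + d + 3 = 6 * 4 + d by omega, n1_add]
lemma mst_G2 {d : ℕ} (hd : d < 6) :
    mst t b s q (27 + d) β = rho (act (shf (n2 t d)) (pj (par q + 1) s)) := by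
  unfold mst
  rw [if_neg (by omega), if_neg (by omega), if_neg (by omega), if_neg (by omega), if_neg (by omega),
    if_neg (by omega), if_neg (by omega), if_pos (by omega), show 27 + d + 3 = 6 * 5 + d by omega,
    n2_add]
lemma mst_GY {d : ℕ} (hd : d < 6) :
    mst t b s q (33 + d) β = rho (act (yard (shf (n2 t d)) q d) (pj (par q + 1) b)) := by
  unfold mst
  rw [if_neg (by omega), if_neg (by omega), if_neg (by omega), if_neg (by omega), if_neg (by omega),
    if_neg (by omega), if_neg (by omega), if_neg (by omega), if_pos (by omega),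
    show 33 + d + 3 = 6 * 6 + d by omega, n2_add, show (6 * 6 + d) % 6 = d by omega]
lemma mst_GG : mst t b s q 39 β = rho (act (8, 1) (pj (par q + 1) b)) := by simp [mst]

lemma mst_reg (q' : Pos) (β' : C) {n : ℕ} (h1 : 1 ≤ n) (h2 : n ≤ 20)
    (hp : par q' % 2 = (par q + 1) % 2) : mst t b s q n β = rho (mst t b s q' n β') := by
  have e : ∀ x, pj (par q) x = rho (pj (par q') x) := fun x => by
    rw [← pj_succ]; exact pj_congr (by omega) x
  unfold mst
  rw [if_neg (by omega : ¬ n = 0), if_neg (by omega : ¬ n = 0)]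
  split_ifs <;> first | exact e _ | omega

end mst

section nm2
variable (t : Ty) (q : Pos) (d : ℕ)
lemma nm2_1 : nm2 t q d 1 = idn := by simp [nm2, nmG]
lemma nm2_2 : nm2 t q d 2 = shf (n1 t d) := by simp [nm2, nmG]
lemma nm2_3 : nm2 t q d 3 = shf (n2 t d) := by simp [nm2, nmG]
lemma nm2_4 : nm2 t q d 4 = yard (shf (n2 t d)) q d := by simp [nm2, nmG]
lemma nm2_5 : nm2 t q d 5 = (1, 1) := by simp [nm2, nmG]
lemma nm2_6 : nm2 t q d 6 = (8, 1) := by simp [nm2, nmG]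
lemma nm2_7 : nm2 t q d 7 = (9, 0) := by simp [nm2, nmG]
lemma nm2_0_odd (i : ℕ) : nm2 t q (2 * i + 1) 0 = (2, 0) := by
  simp [nm2, nmG]
lemma nm2_0_even (i : ℕ) : nm2 t q (2 * i) 0 = (3, 0) := by
  simp [nm2, nmG]
end nm2

lemma rho_ee : rho (ee 0) = 0 := C_add_self _

lemma yard_up (φ : Nm) (q : Pos) (i : Fin 3) {d : ℕ} (hd : d / 2 = i) :
    yard φ (up q i) d = yard φ q d := by
  have : f3 (d / 2 + 1) ≠ i := by
    intro h
    have := congrArg Fin.val h
    simp only [f3] at this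
    omega
  have h2 : ixq (up q i) d = ixq q d := by simp only [ixq, up_ne q this]
  unfold yard
  rw [h2]

lemma match0 (t : Ty) (b s : C) (q : Pos) (i : Fin 3) (β β' : C) {c c' : ℕ}
    (h : ok0 c c' i (par q % 2)) :
    act (nm2 t q (2 * i + 1) (nm c (2 * i + 1))) (mst t b s q (net c) β) =
      rho (act (nm2 t (up q i) (2 * i) (nm c' (2 * i))) (mst t b s (up q i) (net c') β')) := by
  have hp := par_up q i
  have hP : 2 * (i : ℕ) + 1 < 6 := by omega
  have hM : 2 * (i : ℕ) < 6 := by omega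
  have e : ∀ x, pj (par (up q i) + 1) x = pj (par q) x := fun x => pj_congr (by omega) x
  have e' : ∀ x, pj (par (up q i)) x = pj (par q + 1) x := fun x => pj_congr (by omega) x
  unfold ok0 ok0' at h
  generalize nm c (2 * i + 1) = n at h
  generalize nm c' (2 * i) = m at h
  generalize net c = a at h
  generalize net c' = a' at h
  rcases h with ⟨rfl, rfl⟩ | ⟨rfl, rfl, h1, h2, rfl⟩ | ⟨rfl, rfl, rfl, ⟨h0, rfl⟩ | rfl⟩ |
    ⟨rfl, rfl, rfl, ⟨h0, rfl⟩ | rfl⟩ | ⟨rfl, rfl, rfl, rfl⟩ | ⟨rfl, rfl, rfl, rfl⟩ |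
    ⟨rfl, rfl, rfl, ⟨h0, rfl⟩ | rfl⟩ | ⟨rfl, rfl, rfl, ⟨h0, rfl⟩ | rfl⟩ | ⟨rfl, rfl, rfl, rfl⟩ |
    ⟨rfl, rfl, rfl, rfl⟩
  · rw [nm2_0_odd, nm2_0_even, act_2, act_3, rho_ee]
  · rw [nm2_1, nm2_1, act_idn, act_idn]
    exact mst_reg t b s q β _ β' h1 h2 hp
  · rw [nm2_1, nm2_2, act_idn, mst_1, mst_A1 _ _ _ _ _ hP, e', ← pj_succ, pj_two,
      pj_congr (k := 0) h0, pj_congr (k := 0) h0, pj_zero, pj_zero, act_shf]
  · rw [nm2_1, nm2_2, act_idn, mst_1, mst_G1 _ _ _ _ _ hP, rho_rho, e]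
  · rw [nm2_1, nm2_3, act_idn, mst_2, mst_M2 _ _ _ _ _ hP, e', ← pj_succ, pj_two,
      pj_congr (k := 0) h0, pj_congr (k := 0) h0, pj_zero, pj_zero, act_shf]
  · rw [nm2_1, nm2_3, act_idn, mst_2, mst_G2 _ _ _ _ _ hP, rho_rho, e]
  · rw [nm2_1, nm2_4, act_idn, mst_1, mst_GY _ _ _ _ _ hP, rho_rho, e, yard_up _ _ _ (by omega)]
  · rw [nm2_1, nm2_6, act_idn, mst_1, mst_GG, rho_rho, e]
  · rw [nm2_1, nm2_2, act_idn, mst_1, mst_A1 _ _ _ _ _ hM, pj_congr (k := 0 + 1) h0, pj_succ,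
      pj_congr (j := par (up q i)) (k := 0) (by omega), pj_zero, pj_zero, act_shf]
  · rw [nm2_1, nm2_2, act_idn, mst_1, mst_G1 _ _ _ _ _ hM, e']
  · rw [nm2_1, nm2_3, act_idn, mst_2, mst_M2 _ _ _ _ _ hM, pj_congr (k := 0 + 1) h0, pj_succ,
      pj_congr (j := par (up q i)) (k := 0) (by omega), pj_zero, pj_zero, act_shf]
  · rw [nm2_1, nm2_3, act_idn, mst_2, mst_G2 _ _ _ _ _ hM, e']
  · rw [nm2_1, nm2_4, act_idn, mst_1, mst_GY _ _ _ _ _ hM, e', yard_up _ _ _ (by omega)]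
  · rw [nm2_1, nm2_5, act_idn, mst_A2 _ _ _ _ _ hM, mst_M2 _ _ _ _ _ hM, act_11, ← pj_succ, e]

lemma chk_enc (p : Pos) (t : Ty) : chk (enc p t) = enc 0 t := by simp [chk]

lemma typ_sig (a : Tile) (q : Pos) : typ (sig a q) = lay q (typ a) := by
  unfold sig; rw [typ_sigh, G_enc]; rfl
lemma sig_p (a : Tile) (q : Pos) : (sig a q).p = q := rfl
lemma sig_β (a : Tile) (q : Pos) : (sig a q).β = bq (enc a.p (G a.β)) q := rfl
lemma sig_s (a : Tile) (q : Pos) : (sig a q).s =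
    mst (typ a) a.β a.s q (net (cell (typ a).2.2 q)) (bq (enc a.p (G a.β)) q) := by
  simp only [sig, sigh, G_enc]; rfl
lemma ok_sig (a : Tile) (q : Pos) : ok (sig a q) := ok_sigh _ _ _ _

lemma sig_inner (a : Tile) (ha : ok a) (q : Pos) (i : Fin 3) (hq : (q i).val ≠ 5149) :
    RR i (sig a q) (sig a (up q i)) := by
  have hP : 2 * (i : ℕ) + 1 < 6 := by omega
  have hM : 2 * (i : ℕ) < 6 := by omega
  refine ⟨ok_sig _ _, ok_sig _ _, rfl, ?_, ?_⟩
  · rw [typ_sig, typ_sig, n1_lay _ _ hP, n1_lay _ _ hM, sig_β, sig_β]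
    exact c1_in _ q i hq
  · rw [typ_sig, typ_sig, n2_lay _ _ hP, n2_lay _ _ hM, sig_s, sig_s]
    rcases facet_in (typ a).2.2 q i hq with h | h
    · exact match0 _ _ _ _ _ _ _ h
    · have hp := par_up q i
      rcases h with ⟨h0, h1, h2, h3, h4⟩ | ⟨h1, h2, h3, h4, h5⟩
      · rw [h1, h2, h3, h4, nm2_1, nm2_1, act_idn, act_idn, mst_1, mst_2, ha h0, ← pj_succ]
        exact pj_congr (by omega) _
      · have hi : inter (up q i) := by
          by_contra hc
          have := (shell (typ a).2.2 _ hc).2 _ hM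
          omega
        rw [h1, h2, h4, h5, nm2_6, nm2_7, mst_1, mst_0, pj_congr (k := 0) h3, pj_zero, act_81,
          act_9, rho_rho, bq, if_pos hi, chk_enc]

lemma sig_outer (a a' : Tile) (q : Pos) (i : Fin 3) (h : RR i a a') (hq : (q i).val = 5149) :
    RR i (sig a q) (sig a' (up q i)) := by
  have hP : 2 * (i : ℕ) + 1 < 6 := by omega
  have hM : 2 * (i : ℕ) < 6 := by omega
  obtain ⟨_, _, h1, h2, h3⟩ := h
  have hp := par_up q i
  have e : ∀ x, rho (pj (par (up q i)) x) = pj (par q) x := fun x => by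
    rw [← pj_succ]; exact pj_congr (by omega) x
  refine ⟨ok_sig _ _, ok_sig _ _, rfl, ?_, ?_⟩
  · rw [typ_sig, typ_sig, n1_lay _ _ hP, n1_lay _ _ hM, sig_β, sig_β, c1_top _ _ hq,
      c1_bot _ _ (up_top hq), h1, add_sub_cancel_right]
  · rw [typ_sig, typ_sig, n2_lay _ _ hP, n2_lay _ _ hM, sig_s, sig_s]
    have hs := not_inter_bot (up_top hq)
    have hx := facet_out (typ a).2.2 q i hq
    rw [(shell _ _ hs).1, ← (shell (typ a').2.2 _ hs).1] at hx
    rcases hx with ⟨g1, g2⟩ | ⟨g1, g2, ⟨g3, g4⟩ | ⟨g3, g4⟩⟩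
    · rw [g1, g2, nm2_0_odd, nm2_0_even, act_2, act_3, rho_ee]
    · rw [g1, g2, g3, g4, nm2_1, nm2_1, act_idn, act_idn, mst_A1 _ _ _ _ _ hP, mst_A1 _ _ _ _ _ hM, e, h2]
    · rw [g1, g2, g3, g4, nm2_1, nm2_1, act_idn, act_idn, mst_M2 _ _ _ _ _ hP, mst_A2 _ _ _ _ _ hM, e, h3]

end Pool.Agent.H247Z.SBC
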