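import Pool.Agent.H247Z.SBC.Desub

/-! The tile set is self-similar. -/

set_option autoImplicit false

namespace Pool.Agent.H247Z.SBC

lemma bq_shell (p : Pos) (t : Ty) {q : Pos} (hq : ¬ inter q) : bq (enc p t) q = enc p t0 := by
  rw [bq, if_neg hq, proj_enc]

lemma sig_shell {a a' : Tile} (hp : a.p = a'.p) {q : Pos} (hq : ¬ inter q)
    (h : ∀ β, mst (typ a) a.β a.s q (net (cell false q)) β =
      mst (typ a') a'.β a'.s q (net (cell false q)) β) : sig a q = sig a' q := by
  refine tile_ext ((sig_p a q).trans (sig_p a' q).symm) ?_ ?_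
  · rw [sig_β, sig_β, bq_shell _ _ hq, bq_shell _ _ hq, hp]
  · rw [sig_s, sig_s, bq_shell _ _ hq, bq_shell _ _ hq, hp, (shell _ _ hq).1,
      (shell (typ a').2.2 _ hq).1, h]

lemma collar_top {a a' c : Tile} {i : Fin 3} (h : RR i a c) (h' : RR i a' c) {q : Pos}
    (hq : (q i).val = 5149) : sig a q = sig a' q := by
  have hP : 2 * (i : ℕ) + 1 < 6 := by omega
  obtain ⟨-, -, h1, h2, h3⟩ := h
  obtain ⟨-, -, g1, g2, g3⟩ := h'
  apply sig_shell (add_right_cancel (h1.symm.trans g1)) (not_inter_top hq)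
  intro β
  rcases (shell_net false q i).2 ((sq_31_iff q i).2 hq) with e | e | e
  · rw [e, mst_0, mst_0]
  · rw [e, mst_A1 _ _ _ _ _ hP, mst_A1 _ _ _ _ _ hP, h2, g2]
  · rw [e, mst_M2 _ _ _ _ _ hP, mst_M2 _ _ _ _ _ hP, h3, g3]

lemma collar_bot {a a' c : Tile} {i : Fin 3} (h : RR i c a) (h' : RR i c a') {q : Pos}
    (hq : (q i).val = 0) : sig a q = sig a' q := by
  have hM : 2 * (i : ℕ) < 6 := by omega
  obtain ⟨-, -, h1, h2, h3⟩ := h
  obtain ⟨-, -, g1, g2, g3⟩ := h'
  apply sig_shell (h1.trans g1.symm) (not_inter_bot hq)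
  intro β
  rcases (shell_net false q i).1 ((sq_zero_iff q i).2 hq) with e | e | e
  · rw [e, mst_0, mst_0]
  · rw [e, mst_A1 _ _ _ _ _ hM, mst_A1 _ _ _ _ _ hM, ← h2, g2]
  · rw [e, mst_A2 _ _ _ _ _ hM, mst_A2 _ _ _ _ _ hM, ← h3, g3]

lemma collar_two {a a' : Tile} (hp : a.p = a'.p) {q : Pos} {i j : Fin 3} (hij : i ≠ j)
    (hi : (q i).val = 0 ∨ (q i).val = 5149) (hj : (q j).val = 0 ∨ (q j).val = 5149) :
    sig a q = sig a' q := by
  have hs : ¬ inter q := by
    rcases hi with hi | hi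
    · exact not_inter_bot hi
    · exact not_inter_top hi
  apply sig_shell hp hs
  intro β
  have h1 := shell_net false q i
  have h2 := shell_net false q j
  rw [← sq_zero_iff, ← sq_31_iff] at hi hj
  have hne : (i : ℕ) ≠ j := fun h => hij (Fin.ext h)
  have : net (cell false q) = 0 := by
    unfold pD1 at h1 h2
    omega
  rw [this, mst_0, mst_0]

lemma p_valid {Y : Cfg Tile} (hY : Valid RR Y) (v : Pt) : (Y v).p = (Y 0).p + cst NN v := by
  rw [affine_of_step (fun v => (Y v).p) (fun i => Pi.single i 1)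
    (fun v i => (hY v i).2.2.1) v]
  congr 1
  funext i
  fin_cases i <;> simp [cst]

lemma cst_block (w : Pt) (q : Pos) : cst NN (((NN : ℕ) : ℤ) • w + lft q) = q := by
  funext i
  simp only [cst, lft, Pi.add_apply, Pi.smul_apply, smul_eq_mul, Int.cast_add, Int.cast_mul,
    Int.cast_natCast, ZMod.natCast_self, zero_mul, zero_add, ZMod.natCast_zmod_val]

lemma desub (Y : Cfg Tile) (hY : Valid RR Y) (h0 : (Y 0).p = 0) :
    ∃ X, Valid RR X ∧ Y = sub sig X := by
  have hb : ∀ w : Pt, ∃ a, ok a ∧ (fun q : Pos => Y (((NN : ℕ) : ℤ) • w + lft q)) = sig a := by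
    intro w
    apply block
    · intro q
      rw [p_valid hY, h0, zero_add, cst_block]
    · intro q i hq
      have := hY (((NN : ℕ) : ℤ) • w + lft q) i
      rwa [add_assoc, ← lft_succ_of_ne q i (by rwa [Ne, eq_neg_one_iff])] at this
    · intro q
      exact (hY _ 0).1
  choose X hX1 hX2 using hb
  refine ⟨X, fun w i => cross (hX1 _) (hX1 _) i fun q hq => ?_, ?_⟩
  · rw [← hX2, ← hX2]
    have := hY (((NN : ℕ) : ℤ) • w + lft q) i
    rw [add_assoc, ← lft_succ_of_eq q i (by rwa [eq_neg_one_iff]), ← add_assoc, ← smul_add] at this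
    exact this
  · funext v
    conv_lhs => rw [decomp (N := NN) v]
    conv_rhs => rw [decomp (N := NN) v, sub_block, ← hX2]

lemma collar (X X' : Cfg Tile) (hX : Valid RR X) (hX' : Valid RR X') (h0 : X 0 = X' 0) (v : Pt)
    (hv : ∀ i, -1 ≤ v i ∧ v i ≤ ((NN : ℕ) : ℤ)) : sub sig X v = sub sig X' v := by
  obtain ⟨w, hw⟩ : ∃ w : Pt, w = fun i => v i / ((NN : ℕ) : ℤ) := ⟨_, rfl⟩
  obtain ⟨q, hq⟩ : ∃ q : Pos, q = cst NN v := ⟨_, rfl⟩
  have e : ∀ Z : Cfg Tile, sub sig Z v = sig (Z w) q := fun Z => by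
    conv_lhs => rw [decomp (N := NN) v, sub_block, ← hw, ← hq]
  have hc : ∀ i, w i = 0 ∨ (w i = -1 ∧ (q i).val = 5149) ∨ (w i = 1 ∧ (q i).val = 0) := by
    intro i
    have h1 := hv i
    have h2 : (((q i).val : ℕ) : ℤ) = v i % ((NN : ℕ) : ℤ) := by
      rw [hq]; exact ZMod.val_intCast _
    have h3 : w i = v i / ((NN : ℕ) : ℤ) := by rw [hw]
    have h4 : ((NN : ℕ) : ℤ) = 5150 := by norm_num
    rw [h4] at h1 h2 h3
    omega
  rw [e, e]
  by_cases hz : w = 0
  · rw [hz, h0]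
  obtain ⟨i, hi⟩ := Function.ne_iff.1 hz
  have hi' : w i ≠ 0 := hi
  by_cases h2 : ∃ j, j ≠ i ∧ w j ≠ 0
  · obtain ⟨j, hj, hj'⟩ := h2
    have := hc i
    have := hc j
    refine collar_two ?_ hj (by omega) (by omega)
    rw [p_valid hX, p_valid hX', h0]
  · push Not at h2
    rcases hc i with h | h | h
    · exact absurd h hi'
    · have hw0 : w + uv i = 0 := by
        funext j
        by_cases hj : j = i
        · rw [hj]; simp [uv, h.1]
        · simp [uv, hj, h2 j hj]
      have g1 := hX w i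
      have g2 := hX' w i
      rw [hw0] at g1 g2
      rw [h0] at g1
      exact collar_top g1 g2 h.2
    · have hw0 : 0 + uv i = w := by
        funext j
        by_cases hj : j = i
        · rw [hj]; simp [uv, h.1]
        · simp [uv, hj, h2 j hj]
      have g1 := hX 0 i
      have g2 := hX' 0 i
      rw [hw0] at g1 g2
      rw [h0] at g1
      exact collar_bot g1 g2 h.2

theorem selfSim : SelfSim RR NN sig Tile.p ok where
  two := by norm_num
  ok_ex := ⟨sigh 0 0 0 0, ok_sigh _ _ _ _⟩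
  ok_of := fun _ _ _ h => h.1
  ok_σ := fun a q _ => ok_sig a q
  pos_R := fun _ _ _ h => h.2.2.1
  pos_σ := fun _ _ => rfl
  inner := fun a q i ha hq => sig_inner a ha q i (by rwa [Ne, ← eq_neg_one_iff])
  outer := fun a b q i h hq => sig_outer a b q i h (by rwa [← eq_neg_one_iff])
  desub := desub
  inj := fun _ _ _ _ h => sig_inj h
  collar := collar

end Pool.Agent.H247Z.SBC
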