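import Pool.Agent.H247Z.SBC.Defs

/-! Self-similar nearest-neighbour systems: the interface of the substitution layer. -/

set_option autoImplicit false

namespace Pool.Agent.H247Z.SBC

/-- The configuration obtained by replacing every tile `a` by the `N × N × N` block `σ a`. -/
def sub {α : Type} {N : ℕ} (σ : α → (Fin 3 → ZMod N) → α) (X : Cfg α) : Cfg α :=
  fun v => σ (X (fun i => v i / (N : ℤ))) (fun i => ((v i : ℤ) : ZMod N))

/-- A recognisable, border-forcing substitution whose fixed space is the set of valid configurations. -/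
structure SelfSim {α : Type} (R : Fin 3 → α → α → Prop) (N : ℕ)
    (σ : α → (Fin 3 → ZMod N) → α) (pos : α → Fin 3 → ZMod N) (ok : α → Prop) : Prop where
  two : 2 ≤ N
  ok_ex : ∃ a, ok a
  ok_of : ∀ i a b, R i a b → ok a
  ok_σ : ∀ a q, ok a → ok (σ a q)
  pos_R : ∀ i a b, R i a b → pos b = pos a + Pi.single i 1
  pos_σ : ∀ a q, pos (σ a q) = q
  inner : ∀ a q i, ok a → q i ≠ -1 → R i (σ a q) (σ a (q + Pi.single i 1))
  outer : ∀ a b q i, R i a b → q i = -1 → R i (σ a q) (σ b (q + Pi.single i 1))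
  desub : ∀ Y, Valid R Y → pos (Y 0) = 0 → ∃ X, Valid R X ∧ Y = sub σ X
  inj : ∀ a b, ok a → ok b → σ a = σ b → a = b
  collar : ∀ X X', Valid R X → Valid R X' → X 0 = X' 0 →
    ∀ v : Pt, (∀ i, -1 ≤ v i ∧ v i ≤ (N : ℤ)) → sub σ X v = sub σ X' v

/-- The single-site function `g` is a constant plus a coboundary. -/
def Triv1 {α : Type} (R : Fin 3 → α → α → Prop) (g : α → ℝ) : Prop :=
  Triv R (fun X => g (X 0))

end Pool.Agent.H247Z.SBC
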