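import Pool.Agent.H247Z.SBC.Lay
import Pool.Agent.H247Z.SBC.SubDefs

/-! The self-simulating tile set: values, names, types, tiles, rule and substitution. -/

set_option autoImplicit false

namespace Pool.Agent.H247Z.SBC

abbrev C := ZMod 256 → ZMod 2

def Sh (i : ZMod 256) (x : C) : C := fun k => x (k + i)
def ee (k : ZMod 256) : C := Pi.single k 1
def rho (x : C) : C := x + ee 0
def pj (j : ℕ) (x : C) : C := Sh 1 x + j • ee 0

lemma Sh_Sh (i j : ZMod 256) (x : C) : Sh i (Sh j x) = Sh (i + j) x := by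
  funext k; simp [Sh, add_assoc]
@[simp] lemma Sh_zero (x : C) : Sh 0 x = x := by funext k; simp [Sh]
lemma Sh_add (i : ZMod 256) (x y : C) : Sh i (x + y) = Sh i x + Sh i y := rfl
lemma Sh_ee (i k : ZMod 256) : Sh i (ee k) = ee (k - i) := by
  funext j
  simp only [Sh, ee, Pi.single_apply]
  congr 1
  apply propext
  constructor
  · intro h; rw [← h]; ring
  · intro h; rw [h]; ring
lemma Sh_inj (i : ZMod 256) {x y : C} (h : Sh i x = Sh i y) : x = y := by
  have := congrArg (Sh (-i)) h
  simpa [Sh_Sh] using this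
lemma C_add_self (x : C) : x + x = 0 := by
  funext k
  exact CharTwo.add_self_eq_zero (x k)
@[simp] lemma rho_rho (x : C) : rho (rho x) = x := by
  simp [rho, add_assoc, C_add_self]
lemma rho_inj {x y : C} (h : rho x = rho y) : x = y := by
  have := congrArg rho h
  simpa using this
lemma pj_succ (j : ℕ) (x : C) : pj (j + 1) x = rho (pj j x) := by
  simp only [pj, rho, succ_nsmul, add_assoc]
lemma pj_two (j : ℕ) (x : C) : pj (j + 2) x = pj j x := by
  rw [show j + 2 = j + 1 + 1 from rfl, pj_succ, pj_succ, rho_rho]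
lemma pj_mod (j : ℕ) (x : C) : pj (j % 2) x = pj j x := by
  induction j using Nat.strong_induction_on with
  | _ j ih =>
    by_cases h : j < 2
    · rw [Nat.mod_eq_of_lt h]
    · obtain ⟨k, rfl⟩ : ∃ k, j = k + 2 := ⟨j - 2, by omega⟩
      rw [pj_two, Nat.add_mod_right]
      exact ih k (by omega)
lemma pj_congr {j k : ℕ} (h : j % 2 = k % 2) (x : C) : pj j x = pj k x := by
  rw [← pj_mod j, ← pj_mod k, h]
@[simp] lemma pj_zero (x : C) : pj 0 x = Sh 1 x := by simp [pj]
lemma pj_inj (j : ℕ) {x y : C} (h : pj j x = pj j y) : x = y :=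
  Sh_inj 1 (add_right_cancel h)
lemma pj_add_ee (j : ℕ) (x : C) (m : ZMod 256) : pj j (x + ee m) = pj j x + ee (m - 1) := by
  simp only [pj, Sh_add, Sh_ee]
  abel

abbrev Nm := Fin 10 × ZMod 256
abbrev Ty := (Fin 6 → Nm) × (Fin 6 → Nm) × Bool
abbrev NN : ℕ := 5150
abbrev Pos := Fin 3 → ZMod NN

def f6 (d : ℕ) : Fin 6 := ⟨d % 6, Nat.mod_lt _ (by decide)⟩
def f3 (d : ℕ) : Fin 3 := ⟨d % 3, Nat.mod_lt _ (by decide)⟩
def shf (φ : Nm) : Nm := (φ.1, φ.2 + 1)
def nameOf (k : ℕ) : Nm := (⟨k / 256 % 10, Nat.mod_lt _ (by decide)⟩, (k : ZMod 256))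
def sm (v : ℕ) : ℕ := if v < 28 then v else if v < 5148 then 28 + v % 2 else v - 5118
def sq (q : Pos) (i : Fin 3) : ℕ := sm (q i).val
def cell (b : Bool) (q : Pos) : ℕ := cc b (sq q 0) (sq q 1) (sq q 2)
def par (q : Pos) : ℕ := sq q 0 + sq q 1 + sq q 2
def ixq (q : Pos) (d : ℕ) : ℕ := ((q (f3 (d / 2 + 1))).val - 28) / 2
def idn : Nm := (0, 0)
def yard (φ : Nm) (q : Pos) (d : ℕ) : Nm := if nameOf (ixq q d) = φ then idn else nameOf (ixq q d)

/-- the name with code `c` on facet `d`; `φ2 φ3 φ4` are the three variable names -/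
def nmG (φ2 φ3 φ4 : Nm) (d c : ℕ) : Nm :=
  if c = 0 then (if d % 2 = 0 then (3, 0) else (2, 0))
  else if c = 1 then idn
  else if c = 2 then φ2
  else if c = 3 then φ3
  else if c = 4 then φ4
  else if c = 5 then (1, 1) else if c = 6 then (8, 1) else (9, 0)

def n1 (t : Ty) (d : ℕ) : Nm := t.1 (f6 d)
def n2 (t : Ty) (d : ℕ) : Nm := t.2.1 (f6 d)

def nm2 (t : Ty) (q : Pos) (d c : ℕ) : Nm :=
  nmG (shf (n1 t d)) (shf (n2 t d)) (yard (shf (n2 t d)) q d) d c

def inter (q : Pos) : Prop := ∀ i, (q i).val ≠ 0 ∧ (q i).val ≠ 5149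

instance (q : Pos) : Decidable (inter q) := by unfold inter; infer_instance

def nm1 (q : Pos) (d : ℕ) : Nm :=
  if d % 2 = 1 then (if inter q ∧ (q (f3 (d / 2))).val = 5148 then (4, 0) else idn)
  else if (q (f3 (d / 2))).val = 0 then (⟨5 + d / 2 % 3, by omega⟩, 0)
  else if inter q ∧ (q (f3 (d / 2))).val = 1 then (4, 0) else idn

def lay (q : Pos) (t : Ty) : Ty :=
  (fun d => nm1 q d, fun d => nm2 t q d (nm (cell t.2.2 q) d), decide (net (cell t.2.2 q) = 0))

lemma exists_emb {A B : Type} [Finite A] [Finite B] (h : Nat.card A ≤ Nat.card B) :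
    Nonempty (A ↪ B) :=
  ⟨(Finite.equivFin A).toEmbedding.trans
    ((Fin.castLEEmb h).trans (Finite.equivFin B).symm.toEmbedding)⟩

lemma card_fin' (n : ℕ) : Nat.card (Fin n) = n := by simp
lemma card_bool' : Nat.card Bool = 2 := by simp

lemma exists_enc : Nonempty (Option (Pos × Ty) ↪ C) := by
  apply exists_emb
  rw [Finite.card_option, Nat.card_prod, Nat.card_prod, Nat.card_prod, Nat.card_fun, Nat.card_fun,
    Nat.card_fun, Nat.card_prod, Nat.card_zmod, Nat.card_zmod, Nat.card_zmod, card_fin', card_fin',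
    card_fin', card_bool']
  norm_num

noncomputable def enc0 : Option (Pos × Ty) ↪ C := Classical.choice exists_enc
noncomputable def enc (p : Pos) (t : Ty) : C := enc0 (some (p, t))
noncomputable def junk : C := enc0 none
def t0 : Ty := (fun _ => idn, fun _ => idn, false)
open Classical in
noncomputable def dec (x : C) : Pos × Ty :=
  if h : ∃ y : Pos × Ty, enc y.1 y.2 = x then h.choose else (0, t0)

lemma enc_inj {p p' : Pos} {t t' : Ty} (h : enc p t = enc p' t') : p = p' ∧ t = t' := by
  have := enc0.injective h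
  simpa using this
lemma enc_ne_junk (p : Pos) (t : Ty) : enc p t ≠ junk := by
  intro h
  have := enc0.injective h
  simp at this
@[simp] lemma dec_enc (p : Pos) (t : Ty) : dec (enc p t) = (p, t) := by
  have h : ∃ y : Pos × Ty, enc y.1 y.2 = enc p t := ⟨(p, t), rfl⟩
  unfold dec
  rw [dif_pos h]
  have := enc_inj h.choose_spec
  exact Prod.ext this.1 this.2

noncomputable def G (x : C) : Ty := lay (dec x).1 (dec x).2
@[simp] lemma G_enc (p : Pos) (t : Ty) : G (enc p t) = lay p t := by simp [G]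
noncomputable def proj (x : C) : C := enc (dec x).1 t0
open Classical in
noncomputable def chk (x : C) : C := if enc (dec x).1 (dec x).2 = x then enc 0 (dec x).2 else junk

noncomputable def base (b : Fin 10) (x : C) : C :=
  if b.val = 0 then x else if b.val = 1 then rho x else if b.val = 2 then 0
  else if b.val = 3 then ee 0 else if b.val = 4 then proj x
  else if b.val ≤ 7 then enc ((dec x).1 - Pi.single (f3 (b.val - 5)) 1) t0
  else if b.val = 8 then enc 0 (G x) else rho (Sh 1 (chk x))

noncomputable def act (φ : Nm) (x : C) : C := Sh φ.2 (base φ.1 (Sh (-φ.2) x))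

@[simp] lemma act_idn (x : C) : act idn x = x := by simp [act, idn, base]
@[simp] lemma act_2 (x : C) : act (2, 0) x = 0 := by simp [act, base]
@[simp] lemma act_3 (x : C) : act (3, 0) x = ee 0 := by simp [act, base]
@[simp] lemma act_4 (x : C) : act (4, 0) x = proj x := by simp [act, base]
@[simp] lemma act_9 (x : C) : act (9, 0) x = rho (Sh 1 (chk x)) := by simp [act, base]
lemma act_shf (φ : Nm) (x : C) : act (shf φ) (Sh 1 x) = Sh 1 (act φ x) := by
  simp only [act, shf, Sh_Sh]
  rw [show -(φ.2 + 1) + 1 = -φ.2 by ring, add_comm]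
lemma act_81 (x : C) : act (8, 1) (Sh 1 x) = Sh 1 (enc 0 (G x)) := by
  have := act_shf (8, 0) x
  simp only [shf, zero_add] at this
  rw [this]
  simp [act, base]
lemma act_11 (j : ℕ) (x : C) : act (1, 1) (pj j x) = pj j (rho x) := by
  have h : ∀ y, base 1 y = rho y := fun y => by simp [base]
  simp only [act, h, rho, Sh_Sh, add_neg_cancel, Sh_zero, Sh_add]
  simp only [pj, Sh_add]
  abel
lemma act_dec (i : Fin 3) (x : C) :
    act (⟨5 + i.val % 3, by omega⟩, 0) x = enc ((dec x).1 - Pi.single i 1) t0 := by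
  fin_cases i <;> simp [act, base, f3]

/-- A tile: position in its macro-tile, code of the macro-tile, wire value. -/
structure Tile where
  p : Pos
  β : C
  s : C

instance : Finite Tile :=
  Finite.of_injective (fun a : Tile => (a.p, a.β, a.s)) (by
    rintro ⟨a, b, c⟩ ⟨a', b', c'⟩ h
    simp only [Prod.mk.injEq] at h
    obtain ⟨rfl, rfl, rfl⟩ := h
    rfl)

noncomputable def typ (a : Tile) : Ty := lay a.p (G a.β)
def ok (a : Tile) : Prop := (typ a).2.2 = true → a.s = a.β

/-- The matching rule. -/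
def RR (i : Fin 3) (a b : Tile) : Prop :=
  ok a ∧ ok b ∧ b.p = a.p + Pi.single i 1 ∧
    act (n1 (typ a) (2 * i + 1)) a.β = act (n1 (typ b) (2 * i)) b.β ∧
    act (n2 (typ a) (2 * i + 1)) a.s = rho (act (n2 (typ b) (2 * i)) b.s)

/-- The wire value at a cell of net `n`. -/
noncomputable def mst (t : Ty) (b s : C) (q : Pos) (n : ℕ) (β : C) : C :=
  if n = 0 then β
  else if n = 1 then pj (par q) b
  else if n = 2 then pj (par q) s
  else if n < 9 then pj (par q) (act (n1 t (n + 3)) b)
  else if n < 15 then pj (par q) (act (n2 t (n + 3)) s)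
  else if n < 21 then pj (par q) (rho (act (n2 t (n + 3)) s))
  else if n < 27 then rho (act (shf (n1 t (n + 3))) (pj (par q + 1) b))
  else if n < 33 then rho (act (shf (n2 t (n + 3))) (pj (par q + 1) s))
  else if n < 39 then rho (act (yard (shf (n2 t (n + 3))) q ((n + 3) % 6)) (pj (par q + 1) b))
  else rho (act (8, 1) (pj (par q + 1) b))

noncomputable def bq (β : C) (q : Pos) : C := if inter q then β else proj β

noncomputable def sigh (β b s : C) (q : Pos) : Tile :=
  ⟨q, bq β q, mst (G β) b s q (net (cell (G β).2.2 q)) (bq β q)⟩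

/-- The substitution. -/
noncomputable def sig (a : Tile) (q : Pos) : Tile := sigh (enc a.p (G a.β)) a.β a.s q

end Pool.Agent.H247Z.SBC
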